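import Mathlib

namespace Pool.Agent.Results.MP_56a9b7_co.FlipConstant

open Finset

/-- The number of edges of colour j incident with v. -/
noncomputable def colourDegree {V : Type} {k : ℕ} (G : SimpleGraph V) (f : Sym2 V → Fin k)
    (j : Fin k) (v : V) : ℕ :=
  {e : Sym2 V | e ∈ G.edgeSet ∧ v ∈ e ∧ f e = j}.ncard

/-- e_j[v]: the number of edges of colour j with both endpoints in the closed neighbourhood
of v. -/
noncomputable def closedCount {V : Type} {k : ℕ} (G : SimpleGraph V) (f : Sym2 V → Fin k)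
    (j : Fin k) (v : V) : ℕ :=
  {e : Sym2 V | e ∈ G.edgeSet ∧ f e = j ∧ ∀ x ∈ e, x = v ∨ G.Adj v x}.ncard

/-- The sequence a (indexed by 0, ..., k-1) is a k-flip sequence: positive, strictly increasing
and realised by an edge-coloured finite nonempty simple graph in which every vertex has exactly
a j incident edges of colour j, while in every closed neighbourhood the numbers of edges of
colour j are strictly decreasing in j. -/
def IsFlipSeq {k : ℕ} (a : Fin k → ℕ) : Prop :=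
  (∀ j, 0 < a j) ∧ StrictMono a ∧
    ∃ (V : Type) (_ : Finite V) (_ : Nonempty V) (G : SimpleGraph V) (f : Sym2 V → Fin k),
      (∀ v j, colourDegree G f j v = a j) ∧
      (∀ v, StrictAnti (fun j => closedCount G f j v))

section bridge

variable {V : Type} [Fintype V] {k : ℕ}

open Classical in
lemma colourDegree_eq (G : SimpleGraph V) (f : Sym2 V → Fin k) (j : Fin k) (v : V) :
    colourDegree G f j v = (univ.filter (fun y : V => G.Adj v y ∧ f s(v, y) = j)).card := by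
  unfold colourDegree
  have h : {e : Sym2 V | e ∈ G.edgeSet ∧ v ∈ e ∧ f e = j} =
      (fun y => s(v, y)) '' {y : V | G.Adj v y ∧ f s(v, y) = j} := by
    ext e
    constructor
    · rintro ⟨h1, h2, h3⟩
      obtain ⟨y, rfl⟩ := h2
      exact ⟨y, ⟨by simpa using h1, h3⟩, rfl⟩
    · rintro ⟨y, ⟨h1, h2⟩, rfl⟩
      exact ⟨by simpa using h1, by simp, h2⟩
  rw [h, Set.ncard_image_of_injective _ (fun x y hxy => Sym2.congr_right.1 hxy)]
  rw [← Set.ncard_coe_finset]
  congr 1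
  ext y
  simp

open Classical in
lemma closedCount_eq (G : SimpleGraph V) (f : Sym2 V → Fin k) (j : Fin k) (v : V) :
    2 * closedCount G f j v = (univ.filter (fun p : V × V =>
      (G.Adj p.1 p.2 ∧ f s(p.1, p.2) = j) ∧ (p.1 = v ∨ G.Adj v p.1) ∧
        (p.2 = v ∨ G.Adj v p.2))).card := by
  set H : SimpleGraph V :=
    { Adj := fun x y => (G.Adj x y ∧ f s(x, y) = j) ∧ (x = v ∨ G.Adj v x) ∧
        (y = v ∨ G.Adj v y)
      symm := ⟨by
        rintro x y ⟨⟨h1, h2⟩, h3, h4⟩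
        refine ⟨⟨h1.symm, ?_⟩, h4, h3⟩
        rw [Sym2.eq_swap]; exact h2⟩
      loopless := ⟨by
        rintro x ⟨⟨h1, _⟩, _⟩
        exact G.loopless.irrefl x h1⟩ } with hH
  have h1 : closedCount G f j v = H.edgeFinset.card := by
    unfold closedCount
    rw [← Set.ncard_coe_finset]
    congr 1
    ext e
    induction e with
    | _ x y =>
      simp only [SimpleGraph.coe_edgeFinset, SimpleGraph.mem_edgeSet, Set.mem_ofPred_eq,
        Sym2.mem_iff, forall_eq_or_imp, forall_eq]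
      constructor
      · rintro ⟨h1, h2, h3, h4⟩
        exact ⟨⟨h1, h2⟩, h3, h4⟩
      · rintro ⟨⟨h1, h2⟩, h3, h4⟩
        exact ⟨h1, h2, h3, h4⟩
  rw [h1, ← SimpleGraph.sum_degrees_eq_twice_card_edges]
  rw [Finset.card_filter, Fintype.sum_prod_type]
  refine Finset.sum_congr rfl fun x _ => ?_
  rw [← SimpleGraph.card_neighborFinset_eq_degree, ← Finset.card_filter]
  congr 1
  ext y
  simp [SimpleGraph.mem_neighborFinset, hH]

end bridge

section upper

variable {V : Type} [Fintype V]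

/-- The trilinear triangle form. -/
def T3 (P Q S : V → V → ℝ) : ℝ := ∑ v, ∑ x, ∑ y, P v x * Q v y * S x y

lemma T3_swap12 {P Q S : V → V → ℝ} (hS : ∀ x y, S x y = S y x) : T3 P Q S = T3 Q P S := by
  unfold T3
  refine Finset.sum_congr rfl fun v _ => ?_
  rw [Finset.sum_comm]
  refine Finset.sum_congr rfl fun x _ => ?_
  refine Finset.sum_congr rfl fun y _ => ?_
  rw [hS y x]; ring

lemma T3_swap23 {P Q S : V → V → ℝ} (hP : ∀ x y, P x y = P y x) : T3 P Q S = T3 P S Q := by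
  unfold T3
  rw [Finset.sum_comm]
  refine Finset.sum_congr rfl fun x _ => ?_
  refine Finset.sum_congr rfl fun v _ => ?_
  refine Finset.sum_congr rfl fun y _ => ?_
  rw [hP x v]; ring

lemma T3_add1 (P P' Q S : V → V → ℝ) :
    T3 (fun x y => P x y + P' x y) Q S = T3 P Q S + T3 P' Q S := by
  unfold T3
  simp only [← Finset.sum_add_distrib]
  refine Finset.sum_congr rfl fun v _ => ?_
  refine Finset.sum_congr rfl fun x _ => ?_
  refine Finset.sum_congr rfl fun y _ => ?_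
  ring

lemma T3_add2 (P Q Q' S : V → V → ℝ) :
    T3 P (fun x y => Q x y + Q' x y) S = T3 P Q S + T3 P Q' S := by
  unfold T3
  simp only [← Finset.sum_add_distrib]
  refine Finset.sum_congr rfl fun v _ => ?_
  refine Finset.sum_congr rfl fun x _ => ?_
  refine Finset.sum_congr rfl fun y _ => ?_
  ring

lemma T3_lin3 (P Q S S' : V → V → ℝ) (a b : ℝ) :
    T3 P Q (fun x y => a * S x y + b * S' x y) = a * T3 P Q S + b * T3 P Q S' := by
  unfold T3
  simp only [Finset.mul_sum, ← Finset.sum_add_distrib]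
  refine Finset.sum_congr rfl fun v _ => ?_
  refine Finset.sum_congr rfl fun x _ => ?_
  refine Finset.sum_congr rfl fun y _ => ?_
  ring

/-- Expansion of the weighted triangle count. -/
lemma T3_expand (B R : V → V → ℝ) (hB : ∀ x y, B x y = B y x) (hR : ∀ x y, R x y = R y x) :
    T3 (fun x y => B x y + R x y) (fun x y => B x y + R x y)
      (fun x y => 2 * B x y + (-1) * R x y) =
    2 * T3 B B B + 3 * T3 B B R - T3 R R R := by
  rw [T3_add1, T3_add2, T3_add2, T3_lin3, T3_lin3, T3_lin3, T3_lin3]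
  have h1 : T3 B R B = T3 B B R := T3_swap23 hB
  have h2 : T3 R B B = T3 B B R := by rw [T3_swap12 hB, h1]
  have h3 : T3 R B R = T3 B R R := T3_swap12 hR
  have h4 : T3 R R B = T3 B R R := by rw [T3_swap23 hR, h3]
  rw [h1, h2, h3, h4]
  ring

/-- The main counting inequality. -/
lemma main_ineq (B R : V → V → ℝ) (hB : ∀ x y, B x y = B y x) (hR : ∀ x y, R x y = R y x)
    (hB01 : ∀ x y, B x y = 0 ∨ B x y = 1) (hR01 : ∀ x y, R x y = 0 ∨ R x y = 1)
    (hBR : ∀ x y, B x y + R x y ≤ 1) (hBd : ∀ x, B x x = 0) (hRd : ∀ x, R x x = 0)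
    (a : ℝ) (ha : 0 < a) (hdeg : ∀ v, ∑ x, B v x = a) :
    2 * T3 B B B + 3 * T3 B B R - T3 R R R ≤
      (Fintype.card V : ℝ) * (5 * a ^ 2 / 2 - 2 * a) := by
  classical
  have hB0 : ∀ x y, 0 ≤ B x y := fun x y => by rcases hB01 x y with h | h <;> rw [h] <;> norm_num
  have hR0 : ∀ x y, 0 ≤ R x y := fun x y => by rcases hR01 x y with h | h <;> rw [h] <;> norm_num
  have hB1 : ∀ x y, B x y ≤ 1 := fun x y => by rcases hB01 x y with h | h <;> rw [h] <;> norm_num
  have hR1 : ∀ x y, R x y ≤ 1 := fun x y => by rcases hR01 x y with h | h <;> rw [h] <;> norm_num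
  have hBB : ∀ x y, B x y * B x y = B x y := fun x y => by
    rcases hB01 x y with h | h <;> rw [h] <;> norm_num
  -- local quantities
  set M : V → ℝ := fun v => ∑ x, ∑ y, B v x * B v y * R x y with hM
  set W : V → ℝ := fun v => ∑ x, ∑ y, ∑ z,
    B v x * B v y * B v z * (R x y * R x z * R y z) with hW
  have hBBR : T3 B B R = ∑ v, M v := rfl
  have hBBB : T3 B B B ≤ ∑ v, (a ^ 2 - a - M v) := by
    unfold T3
    refine Finset.sum_le_sum fun v _ => ?_
    have h1 : ∑ x, ∑ y, B v x * B v y * B x y + M v ≤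
        ∑ x, ∑ y, B v x * B v y * (1 - if x = y then 1 else 0) := by
      rw [hM]
      simp only [← Finset.sum_add_distrib]
      refine Finset.sum_le_sum fun x _ => Finset.sum_le_sum fun y _ => ?_
      rw [← mul_add]
      refine mul_le_mul_of_nonneg_left ?_ (mul_nonneg (hB0 _ _) (hB0 _ _))
      by_cases hxy : x = y
      · subst hxy; simp [hBd, hRd]
      · simp [hxy, hBR]
    have h2 : ∑ x, ∑ y, B v x * B v y * (1 - if x = y then 1 else 0) = a ^ 2 - a := by
      simp only [mul_sub, mul_one, Finset.sum_sub_distrib, mul_ite, mul_zero]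
      simp only [Finset.sum_ite_eq, Finset.mem_univ, if_true, hBB]
      rw [hdeg v]
      congr 1
      simp only [← Finset.mul_sum]
      rw [hdeg v, ← Finset.sum_mul, hdeg v]; ring
    linarith
  have hWT : ∑ v, W v ≤ a * T3 R R R := by
    have h1 : ∑ v, W v = ∑ x, ∑ y, ∑ z, (∑ v, B v x * B v y * B v z) *
        (R x y * R x z * R y z) := by
      rw [hW]
      rw [Finset.sum_comm]
      refine Finset.sum_congr rfl fun x _ => ?_
      rw [Finset.sum_comm]
      refine Finset.sum_congr rfl fun y _ => ?_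
      rw [Finset.sum_comm]
      refine Finset.sum_congr rfl fun z _ => ?_
      rw [Finset.sum_mul]
    rw [h1]
    unfold T3
    simp only [Finset.mul_sum]
    refine Finset.sum_le_sum fun x _ => Finset.sum_le_sum fun y _ =>
      Finset.sum_le_sum fun z _ => ?_
    have h2 : ∑ v, B v x * B v y * B v z ≤ a := by
      rw [← hdeg x]
      refine Finset.sum_le_sum fun v _ => ?_
      rw [hB v x]
      calc B x v * B v y * B v z ≤ B x v * 1 * 1 := by
            refine mul_le_mul (mul_le_mul_of_nonneg_left (hB1 _ _) (hB0 _ _)) (hB1 _ _)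
              (hB0 _ _) (mul_nonneg (hB0 _ _) zero_le_one)
        _ = B x v := by ring
    exact mul_le_mul_of_nonneg_right h2
      (mul_nonneg (mul_nonneg (hR0 _ _) (hR0 _ _)) (hR0 _ _))
  have hloc : ∀ v, 2 * M v ^ 2 - a ^ 2 * M v ≤ a * W v := by
    intro v
    set D : V → ℝ := fun x => ∑ y, B v y * R x y with hD
    have hMD : M v = ∑ x, B v x * D x := by
      rw [hM, hD]
      refine Finset.sum_congr rfl fun x _ => ?_
      rw [Finset.mul_sum]
      refine Finset.sum_congr rfl fun y _ => ?_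
      ring
    have hCS : M v ^ 2 ≤ a * ∑ x, B v x * D x ^ 2 := by
      have h := Finset.sum_mul_sq_le_sq_mul_sq univ (fun x => B v x) (fun x => B v x * D x)
      have e1 : ∑ x, B v x * (B v x * D x) = M v := by
        rw [hMD]
        refine Finset.sum_congr rfl fun x _ => ?_
        rw [← mul_assoc, hBB]
      have e2 : ∑ x, B v x ^ 2 = a := by
        rw [← hdeg v]
        refine Finset.sum_congr rfl fun x _ => ?_
        rw [pow_two, hBB]
      have e3 : ∑ x, (B v x * D x) ^ 2 = ∑ x, B v x * D x ^ 2 := by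
        refine Finset.sum_congr rfl fun x _ => ?_
        rw [mul_pow, pow_two (B v x), hBB]
      rw [e1, e2, e3] at h
      exact h
    have hWl : 2 * (∑ x, B v x * D x ^ 2) - a * M v ≤ W v := by
      have h1 : ∑ x, ∑ y, ∑ z, B v x * B v y * B v z * (R x y * (R x z + R y z - 1)) ≤ W v := by
        rw [hW]
        refine Finset.sum_le_sum fun x _ => Finset.sum_le_sum fun y _ =>
          Finset.sum_le_sum fun z _ => ?_
        refine mul_le_mul_of_nonneg_left ?_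
          (mul_nonneg (mul_nonneg (hB0 _ _) (hB0 _ _)) (hB0 _ _))
        rw [mul_assoc]
        refine mul_le_mul_of_nonneg_left ?_ (hR0 _ _)
        rcases hR01 x z with h | h <;> rcases hR01 y z with h' | h' <;> rw [h, h'] <;> norm_num
      have h2 : ∑ x, ∑ y, ∑ z, B v x * B v y * B v z * (R x y * (R x z + R y z - 1)) =
          ∑ x, ∑ y, (B v x * B v y * R x y * D x + B v x * B v y * R x y * D y
            - a * (B v x * B v y * R x y)) := by
        refine Finset.sum_congr rfl fun x _ => Finset.sum_congr rfl fun y _ => ?_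
        rw [hD]
        simp only [Finset.mul_sum]
        rw [← hdeg v, Finset.sum_mul, ← Finset.sum_add_distrib, ← Finset.sum_sub_distrib]
        refine Finset.sum_congr rfl fun z _ => ?_
        ring
      have h3 : ∑ x, ∑ y, (B v x * B v y * R x y * D x) = ∑ x, B v x * D x ^ 2 := by
        refine Finset.sum_congr rfl fun x _ => ?_
        rw [pow_two, ← mul_assoc]
        conv_rhs => rw [hD]
        simp only [Finset.mul_sum, Finset.sum_mul]
        refine Finset.sum_congr rfl fun y _ => ?_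
        simp only [hD, Finset.mul_sum]
        refine Finset.sum_congr rfl fun z _ => ?_
        ring
      have h4 : ∑ x, ∑ y, (B v x * B v y * R x y * D y) = ∑ x, B v x * D x ^ 2 := by
        rw [← h3, Finset.sum_comm]
        refine Finset.sum_congr rfl fun y _ => Finset.sum_congr rfl fun x _ => ?_
        rw [hR x y]; ring
      have h5 : ∑ x, ∑ y, a * (B v x * B v y * R x y) = a * M v := by
        rw [hM]
        simp only [Finset.mul_sum]
      rw [h2] at h1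
      simp only [Finset.sum_add_distrib, Finset.sum_sub_distrib] at h1
      rw [h3, h4, h5] at h1
      linarith
    nlinarith [hCS, hWl, ha]
  -- combine
  have hsum : a ^ 2 * (2 * T3 B B B + 3 * T3 B B R - T3 R R R) ≤
      a ^ 2 * ((Fintype.card V : ℝ) * (5 * a ^ 2 / 2 - 2 * a)) := by
    have e1 : a ^ 2 * T3 R R R ≥ ∑ v, (2 * M v ^ 2 - a ^ 2 * M v) := by
      calc a ^ 2 * T3 R R R = a * (a * T3 R R R) := by ring
        _ ≥ a * ∑ v, W v := mul_le_mul_of_nonneg_left hWT ha.le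
        _ = ∑ v, a * W v := by rw [Finset.mul_sum]
        _ ≥ ∑ v, (2 * M v ^ 2 - a ^ 2 * M v) := Finset.sum_le_sum fun v _ => hloc v
    have e2 : a ^ 2 * T3 B B B ≤ ∑ v, a ^ 2 * (a ^ 2 - a - M v) := by
      rw [← Finset.mul_sum]
      exact mul_le_mul_of_nonneg_left hBBB (by positivity)
    have e3 : a ^ 2 * T3 B B R = ∑ v, a ^ 2 * M v := by rw [hBBR, Finset.mul_sum]
    have e4 : ∑ v, (2 * (a ^ 2 * (a ^ 2 - a - M v)) + 3 * (a ^ 2 * M v) -
        (2 * M v ^ 2 - a ^ 2 * M v)) ≤ ∑ _v : V, a ^ 2 * (5 * a ^ 2 / 2 - 2 * a) := by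
      refine Finset.sum_le_sum fun v _ => ?_
      nlinarith [sq_nonneg (M v - a ^ 2 / 2)]
    rw [Finset.sum_const, Finset.card_univ, nsmul_eq_mul] at e4
    simp only [Finset.sum_add_distrib, Finset.sum_sub_distrib, ← Finset.mul_sum] at e1 e2 e3 e4
    nlinarith [e1, e2, e3, e4]
  have ha2 : 0 < a ^ 2 := by positivity
  exact le_of_mul_le_mul_left hsum ha2

end upper

section upper2

variable {V : Type} [Fintype V] {k : ℕ}

open Classical in
/-- Adjacency indicator. -/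
noncomputable def aI (G : SimpleGraph V) (x y : V) : ℝ := if G.Adj x y then 1 else 0

open Classical in
/-- Colour class indicator. -/
noncomputable def cI (G : SimpleGraph V) (f : Sym2 V → Fin k) (j : Fin k) (x y : V) : ℝ :=
  if G.Adj x y ∧ f s(x, y) = j then 1 else 0

lemma cI_symm (G : SimpleGraph V) (f : Sym2 V → Fin k) (j : Fin k) (x y : V) :
    cI G f j x y = cI G f j y x := by
  unfold cI
  rw [G.adj_comm, Sym2.eq_swap]

lemma cI_self (G : SimpleGraph V) (f : Sym2 V → Fin k) (j : Fin k) (x : V) :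
    cI G f j x x = 0 := by
  simp [cI]

lemma closed_formula (G : SimpleGraph V) (f : Sym2 V → Fin k) (j : Fin k) (v : V) :
    2 * (closedCount G f j v : ℝ) = 2 * (colourDegree G f j v : ℝ) +
      ∑ x, ∑ y, aI G v x * aI G v y * cI G f j x y := by
  classical
  have h1 : 2 * (closedCount G f j v : ℝ) = ∑ x, ∑ y,
      cI G f j x y * ((if x = v then 1 else 0) + aI G v x) *
        ((if y = v then 1 else 0) + aI G v y) := by
    have h := closedCount_eq G f j v
    have h' : 2 * (closedCount G f j v : ℝ) = ((2 * closedCount G f j v : ℕ) : ℝ) := by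
      push_cast; ring
    rw [h', h, Finset.card_filter, Fintype.sum_prod_type]
    push_cast
    refine Finset.sum_congr rfl fun x _ => Finset.sum_congr rfl fun y _ => ?_
    have hind : ∀ z : V, ((if z = v then 1 else 0) + aI G v z : ℝ) =
        if (z = v ∨ G.Adj v z) then 1 else 0 := by
      intro z
      by_cases hz : z = v
      · subst hz; simp [aI]
      · simp [aI, hz]
    rw [hind, hind]
    unfold cI
    by_cases c1 : G.Adj x y ∧ f s(x, y) = j <;> by_cases c2 : (x = v ∨ G.Adj v x) <;>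
      by_cases c3 : (y = v ∨ G.Adj v y) <;> simp only [c1, c2, c3, if_true, if_false] <;> simp
  have h2 : (colourDegree G f j v : ℝ) = ∑ y, cI G f j v y := by
    rw [colourDegree_eq, Finset.card_filter]
    push_cast
    rfl
  have hAC : ∀ y, aI G v y * cI G f j v y = cI G f j v y := by
    intro y
    unfold aI cI
    by_cases c1 : G.Adj v y <;> simp [c1]
  rw [h1, h2]
  have e1 : ∀ x y, cI G f j x y * ((if x = v then 1 else 0) + aI G v x) *
        ((if y = v then 1 else 0) + aI G v y) =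
      (if x = v then (cI G f j x y * (if y = v then 1 else 0)) else 0) +
      (if x = v then cI G f j x y * aI G v y else 0) +
      (if y = v then cI G f j x y * aI G v x else 0) +
      aI G v x * aI G v y * cI G f j x y := by
    intro x y
    by_cases hx : x = v <;> by_cases hy : y = v <;> simp [hx, hy] <;> ring
  simp only [e1, Finset.sum_add_distrib]
  have e2 : ∑ x, ∑ y, (if x = v then (cI G f j x y * (if y = v then 1 else 0)) else 0) =
      (0 : ℝ) := by
    rw [Finset.sum_eq_single v]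
    · simp [cI_self]
    · intro b _ hb; simp [hb]
    · simp
  have e3 : ∑ x, ∑ y, (if x = v then cI G f j x y * aI G v y else 0) =
      ∑ y, cI G f j v y := by
    rw [Finset.sum_eq_single v]
    · refine Finset.sum_congr rfl fun y _ => ?_
      rw [if_pos rfl, mul_comm, hAC]
    · intro b _ hb; simp [hb]
    · simp
  have e4 : ∑ x, ∑ y, (if y = v then cI G f j x y * aI G v x else 0) =
      ∑ y, cI G f j v y := by
    refine Finset.sum_congr rfl fun x _ => ?_
    rw [Finset.sum_eq_single v]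
    · rw [if_pos rfl, cI_symm G f j x v, mul_comm, hAC]
    · intro b _ hb; simp [hb]
    · simp
  rw [e2, e3, e4]
  ring

end upper2

/-- Upper bound: a three-colour flip sequence has a 2 < (5/4) (a 0)^2. -/
theorem flip_upper (a : Fin 3 → ℕ) (h : IsFlipSeq a) :
    (a 1 : ℝ) + a 2 + 3 ≤ 5 / 4 * (a 0 : ℝ) ^ 2 + a 0 := by
  classical
  obtain ⟨hpos, hmono, V, hfin, hne, G, f, hd, hs⟩ := h
  haveI : Fintype V := Fintype.ofFinite V
  set B : V → V → ℝ := cI G f 0 with hB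
  set R : V → V → ℝ := fun x y => cI G f 1 x y + cI G f 2 x y with hR
  have hA : ∀ x y, aI G x y = B x y + R x y := by
    intro x y
    simp only [hB, hR]
    unfold aI cI
    by_cases c : G.Adj x y
    · simp only [c, true_and, if_true]
      generalize f s(x, y) = i
      fin_cases i <;> simp
    · simp [c]
  have h01 : ∀ j x y, cI G f j x y = 0 ∨ cI G f j x y = 1 := by
    intro j x y
    unfold cI
    split_ifs <;> simp
  have hR01 : ∀ x y, R x y = 0 ∨ R x y = 1 := by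
    intro x y
    simp only [hR]
    unfold cI
    by_cases c : G.Adj x y
    · simp only [c, true_and]
      generalize f s(x, y) = i
      fin_cases i <;> simp
    · simp [c]
  have hBR : ∀ x y, B x y + R x y ≤ 1 := by
    intro x y
    rw [← hA]
    unfold aI
    split_ifs <;> norm_num
  have hdeg : ∀ v, ∑ x, B v x = (a 0 : ℝ) := by
    intro v
    rw [← hd v 0, colourDegree_eq, Finset.card_filter]
    push_cast
    rfl
  have ha0 : (0 : ℝ) < a 0 := by exact_mod_cast hpos 0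
  have hmain := main_ineq B R (fun x y => cI_symm G f 0 x y)
    (fun x y => by simp only [hR]; rw [cI_symm G f 1 x y, cI_symm G f 2 x y])
    (h01 0) hR01 hBR (fun x => cI_self G f 0 x)
    (fun x => by simp only [hR]; rw [cI_self, cI_self]; norm_num) (a 0) ha0 hdeg
  rw [← T3_expand B R (fun x y => cI_symm G f 0 x y)
    (fun x y => by simp only [hR]; rw [cI_symm G f 1 x y, cI_symm G f 2 x y])] at hmain
  have hloc : ∀ v, (6 : ℝ) ≤ 2 * (2 * (a 0 : ℝ) - a 1 - a 2) +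
      ∑ x, ∑ y, (B v x + R v x) * (B v y + R v y) * (2 * B x y + (-1) * R x y) := by
    intro v
    have e0 := closed_formula G f 0 v
    have e1 := closed_formula G f 1 v
    have e2 := closed_formula G f 2 v
    rw [hd v 0] at e0
    rw [hd v 1] at e1
    rw [hd v 2] at e2
    have g1 : closedCount G f 1 v < closedCount G f 0 v := hs v (by decide)
    have g2 : closedCount G f 2 v < closedCount G f 1 v := hs v (by decide)
    have g1' : (closedCount G f 1 v : ℝ) + 1 ≤ closedCount G f 0 v := by exact_mod_cast g1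
    have g2' : (closedCount G f 2 v : ℝ) + 1 ≤ closedCount G f 1 v := by exact_mod_cast g2
    have e3 : ∑ x, ∑ y, (B v x + R v x) * (B v y + R v y) * (2 * B x y + (-1) * R x y) =
        2 * (∑ x, ∑ y, aI G v x * aI G v y * cI G f 0 x y) -
        (∑ x, ∑ y, aI G v x * aI G v y * cI G f 1 x y) -
        (∑ x, ∑ y, aI G v x * aI G v y * cI G f 2 x y) := by
      simp only [Finset.mul_sum, ← Finset.sum_sub_distrib]
      refine Finset.sum_congr rfl fun x _ => Finset.sum_congr rfl fun y _ => ?_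
      rw [← hA, ← hA]
      simp only [hB, hR]
      ring
    rw [e3]
    linarith
  have hsum : ∑ _v : V, (6 : ℝ) ≤ ∑ v : V, (2 * (2 * (a 0 : ℝ) - a 1 - a 2) +
      ∑ x, ∑ y, (B v x + R v x) * (B v y + R v y) * (2 * B x y + (-1) * R x y)) :=
    Finset.sum_le_sum fun v _ => hloc v
  rw [Finset.sum_add_distrib, Finset.sum_const, Finset.sum_const, Finset.card_univ,
    nsmul_eq_mul, nsmul_eq_mul] at hsum
  have hT : ∑ v, ∑ x, ∑ y, (B v x + R v x) * (B v y + R v y) * (2 * B x y + (-1) * R x y) =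
      T3 (fun x y => B x y + R x y) (fun x y => B x y + R x y)
      (fun x y => 2 * B x y + (-1) * R x y) := rfl
  rw [hT] at hsum
  have hn : (0 : ℝ) < Fintype.card V := by exact_mod_cast Fintype.card_pos
  have hfinal : (Fintype.card V : ℝ) * 6 ≤ (Fintype.card V : ℝ) *
      (2 * (2 * (a 0 : ℝ) - a 1 - a 2) + (5 * (a 0 : ℝ) ^ 2 / 2 - 2 * a 0)) := by
    nlinarith [hsum, hmain]
  have := le_of_mul_le_mul_left hfinal hn
  linarith

section counting

open Classical in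
/-- Number of elements satisfying p. -/
noncomputable def cn {α : Type} [Fintype α] (p : α → Prop) : ℕ := (univ.filter p).card

variable {α β : Type} [Fintype α] [Fintype β]

lemma cn_le {p q : α → Prop} (h : ∀ x, p x → q x) : cn p ≤ cn q := by
  classical
  unfold cn
  exact Finset.card_le_card (fun x hx => by
    simp only [Finset.mem_filter, Finset.mem_univ, true_and] at hx ⊢; exact h x hx)

lemma cn_congr {p q : α → Prop} (h : ∀ x, p x ↔ q x) : cn p = cn q :=
  le_antisymm (cn_le fun x => (h x).1) (cn_le fun x => (h x).2)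

lemma cn_param_le {p : α → Prop} {q : β → Prop} (g : α → β)
    (h : ∀ y, q y → ∃ x, p x ∧ g x = y) : cn q ≤ cn p := by
  classical
  unfold cn
  calc (univ.filter q).card ≤ ((univ.filter p).image g).card := by
        refine Finset.card_le_card fun y hy => ?_
        simp only [Finset.mem_filter, Finset.mem_univ, true_and] at hy
        obtain ⟨x, hx, rfl⟩ := h y hy
        exact Finset.mem_image_of_mem g (by simpa using hx)
    _ ≤ (univ.filter p).card := Finset.card_image_le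

lemma cn_param_ge {p : α → Prop} {q : β → Prop} (g : α → β)
    (hinj : ∀ x y, p x → p y → g x = g y → x = y) (h : ∀ x, p x → q (g x)) : cn p ≤ cn q := by
  classical
  unfold cn
  have h1 : ((univ.filter p).image g).card = (univ.filter p).card := by
    refine Finset.card_image_of_injOn ?_
    intro x hx y hy hxy
    simp only [Finset.coe_filter, Finset.mem_univ, true_and] at hx hy
    exact hinj x y hx hy hxy
  rw [← h1]
  refine Finset.card_le_card fun y hy => ?_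
  obtain ⟨x, hx, rfl⟩ := Finset.mem_image.1 hy
  simp only [Finset.mem_filter, Finset.mem_univ, true_and] at hx ⊢
  exact h x hx

lemma cn_param {p : α → Prop} {q : β → Prop} (g : α → β)
    (hinj : ∀ x y, p x → p y → g x = g y → x = y) (h : ∀ y, q y ↔ ∃ x, p x ∧ g x = y) :
    cn q = cn p :=
  le_antisymm (cn_param_le g fun y => (h y).1)
    (cn_param_ge g hinj fun x hx => (h (g x)).2 ⟨x, hx, rfl⟩)

lemma cn_or_le (p q : α → Prop) : cn (fun x => p x ∨ q x) ≤ cn p + cn q := by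
  classical
  unfold cn
  refine (Finset.card_le_card (t := univ.filter p ∪ univ.filter q) ?_).trans
    (Finset.card_union_le _ _)
  intro x hx
  simpa using hx

lemma cn_or_eq {p q : α → Prop} (h : ∀ x, p x → q x → False) :
    cn (fun x => p x ∨ q x) = cn p + cn q := by
  classical
  unfold cn
  rw [← Finset.card_union_of_disjoint]
  · congr 1
    ext x
    simp
  · rw [Finset.disjoint_filter]
    exact fun x _ hp hq => h x hp hq

lemma cn_pairs (Q : α → β → Prop) :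
    cn (fun z : α × β => Q z.1 z.2) = ∑ x, cn (Q x) := by
  classical
  unfold cn
  rw [Finset.card_filter, Fintype.sum_prod_type]
  refine Finset.sum_congr rfl fun x _ => ?_
  rw [Finset.card_filter]

lemma sum_if_const (p : α → Prop) (c : ℕ) [DecidablePred p] :
    ∑ x, (if p x then c else 0) = cn p * c := by
  classical
  unfold cn
  rw [← Finset.sum_filter, Finset.sum_const, smul_eq_mul]
  congr!

/-- Pairs with a guard on the first coordinate and exact fibre size. -/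
lemma cn_guard_eq (p : α → Prop) (Q : α → β → Prop) (c : ℕ) (h : ∀ x, p x → cn (Q x) = c) :
    cn (fun z : α × β => p z.1 ∧ Q z.1 z.2) = cn p * c := by
  classical
  rw [cn_pairs (fun x y => p x ∧ Q x y), ← sum_if_const p c]
  refine Finset.sum_congr rfl fun x _ => ?_
  by_cases hx : p x
  · rw [if_pos hx, ← h x hx]
    exact cn_congr fun y => by simp [hx]
  · rw [if_neg hx]
    unfold cn
    simp [hx]

lemma cn_guard_le (p : α → Prop) (Q : α → β → Prop) (c : ℕ) (h : ∀ x, p x → cn (Q x) ≤ c) :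
    cn (fun z : α × β => p z.1 ∧ Q z.1 z.2) ≤ cn p * c := by
  classical
  rw [cn_pairs (fun x y => p x ∧ Q x y), ← sum_if_const p c]
  refine Finset.sum_le_sum fun x _ => ?_
  by_cases hx : p x
  · rw [if_pos hx]
    exact (cn_le fun y hy => hy.2).trans (h x hx)
  · rw [if_neg hx]
    unfold cn
    simp [hx]

lemma cn_guard_ge (p : α → Prop) (Q : α → β → Prop) (c : ℕ) (h : ∀ x, p x → c ≤ cn (Q x)) :
    cn p * c ≤ cn (fun z : α × β => p z.1 ∧ Q z.1 z.2) := by
  classical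
  rw [cn_pairs (fun x y => p x ∧ Q x y), ← sum_if_const p c]
  refine Finset.sum_le_sum fun x _ => ?_
  by_cases hx : p x
  · rw [if_pos hx]
    exact (h x hx).trans (cn_le fun y hy => ⟨hx, hy⟩)
  · rw [if_neg hx]
    exact Nat.zero_le _

lemma cn_true : cn (fun _ : α => True) = Fintype.card α := by
  classical
  unfold cn
  simp [Finset.card_univ]

lemma cn_prod (p : α → Prop) (q : β → Prop) :
    cn (fun z : α × β => p z.1 ∧ q z.2) = cn p * cn q :=
  cn_guard_eq p (fun _ y => q y) (cn q) fun _ _ => rfl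

lemma cn_fst (p : α → Prop) : cn (fun z : α × β => p z.1) = cn p * Fintype.card β := by
  rw [← cn_true (α := β), ← cn_prod]
  exact cn_congr fun z => by simp

lemma cn_ne {n : ℕ} (p : Fin (n + 1)) : cn (fun x : Fin (n + 1) => x ≠ p) = n := by
  classical
  unfold cn
  have h : (univ.erase p).card = n := by simp
  refine Eq.trans ?_ h
  congr 1
  ext x
  simp

lemma cn_erase {p : α → Prop} (a : α) (ha : p a) : cn p = cn (fun x => x ≠ a ∧ p x) + 1 := by
  classical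
  have h1 : cn (fun x : α => x = a) = 1 := by
    unfold cn
    rw [Finset.card_eq_one]
    exact ⟨a, by ext x; simp⟩
  rw [← h1, ← cn_or_eq (fun x h h' => h.1 h')]
  refine cn_congr fun x => ?_
  by_cases hx : x = a
  · subst hx; simp [ha]
  · simp [hx]

lemma cn_swap (Q : α → β → Prop) :
    cn (fun z : β × α => Q z.2 z.1) = cn (fun z : α × β => Q z.1 z.2) :=
  cn_param (fun z => (z.2, z.1)) (fun x y _ _ h => by
    obtain ⟨a, b⟩ := x; obtain ⟨c, d⟩ := y; simp only [Prod.mk.injEq] at h ⊢; exact ⟨h.2, h.1⟩)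
    (fun y => ⟨fun h => ⟨(y.2, y.1), h, rfl⟩, fun ⟨x, hx, hxy⟩ => by rw [← hxy]; exact hx⟩)

lemma cn_bool_ne (b : Bool) (d : ℕ) : cn (fun w : Bool × Fin d => b ≠ w.1) = d := by
  rw [cn_fst (fun c : Bool => b ≠ c)]
  have : cn (fun c : Bool => b ≠ c) = 1 := by
    classical
    unfold cn
    rw [Finset.card_eq_one]
    exact ⟨!b, by ext x; cases b <;> cases x <;> simp⟩
  rw [this]; simp

end counting

section levelU

variable {κ t : ℕ}

/-- Base vertices: a state function, a position and a copy index. -/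
abbrev U (κ t : ℕ) := (Fin (κ + 1) → Fin (κ + 1)) × Fin (κ + 1) × Fin t

def agr (f g : Fin (κ + 1) → Fin (κ + 1)) (p : Fin (κ + 1)) : Prop := ∀ j, j ≠ p → f j = g j

/-- closed colour-0 neighbourhood -/
def Bs (u x : U κ t) : Prop := u.1 = x.1 ∨ (u.2.1 = x.2.1 ∧ agr u.1 x.1 u.2.1)
def B1 (u x : U κ t) : Prop := u ≠ x ∧ Bs u x
def A2 (u x : U κ t) : Prop := u.1 = x.1 ∧ u.2.1 ≠ x.2.1
def RR (u x : U κ t) : Prop :=
  u.2.1 ≠ x.2.1 ∧ u.1 ≠ x.1 ∧ (agr u.1 x.1 u.2.1 ∨ agr u.1 x.1 x.2.1)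
def Cl (u x : U κ t) : Prop := agr u.1 x.1 u.2.1 ∨ agr u.1 x.1 x.2.1

lemma agr_symm {f g : Fin (κ + 1) → Fin (κ + 1)} {p} (h : agr f g p) : agr g f p :=
  fun j hj => (h j hj).symm

lemma agr_rfl (f : Fin (κ + 1) → Fin (κ + 1)) (p) : agr f f p := fun _ _ => rfl

lemma agr_trans {f g h : Fin (κ + 1) → Fin (κ + 1)} {p} (h1 : agr f g p) (h2 : agr g h p) :
    agr f h p := fun j hj => (h1 j hj).trans (h2 j hj)

/-- agreeing off two different places means equality -/
lemma agr_eq {f g : Fin (κ + 1) → Fin (κ + 1)} {p q} (h1 : agr f g p) (h2 : agr f g q)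
    (hpq : p ≠ q) : f = g := by
  funext j
  by_cases hj : j = p
  · exact h2 j (by rw [hj]; exact hpq)
  · exact h1 j hj

lemma Bs_symm {u x : U κ t} (h : Bs u x) : Bs x u := by
  rcases h with h | ⟨h1, h2⟩
  · exact Or.inl h.symm
  · exact Or.inr ⟨h1.symm, by rw [← h1]; exact agr_symm h2⟩

lemma B1_symm {u x : U κ t} (h : B1 u x) : B1 x u := ⟨h.1.symm, Bs_symm h.2⟩

lemma A2_symm {u x : U κ t} (h : A2 u x) : A2 x u := ⟨h.1.symm, h.2.symm⟩

lemma RR_symm {u x : U κ t} (h : RR u x) : RR x u :=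
  ⟨h.1.symm, h.2.1.symm, h.2.2.elim (fun h => Or.inr (agr_symm h)) (fun h => Or.inl (agr_symm h))⟩

lemma Cl_of_Bs {u x : U κ t} (h : Bs u x) : Cl u x := by
  rcases h with h | ⟨h1, h2⟩
  · exact Or.inl (by rw [h]; exact agr_rfl _ _)
  · exact Or.inl h2

lemma Cl_iff {u x : U κ t} : Cl u x ↔ Bs u x ∨ RR u x := by
  constructor
  · intro h
    by_cases h1 : u.1 = x.1
    · exact Or.inl (Or.inl h1)
    · by_cases h2 : u.2.1 = x.2.1
      · refine Or.inl (Or.inr ⟨h2, ?_⟩)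
        rcases h with h | h
        · exact h
        · rw [h2]; exact h
      · exact Or.inr ⟨h2, h1, h⟩
  · rintro (h | h)
    · exact Cl_of_Bs h
    · exact h.2.2

lemma Bs_RR {u x : U κ t} (h1 : Bs u x) (h2 : RR u x) : False := by
  rcases h1 with h | ⟨h, _⟩
  · exact h2.2.1 h
  · exact h2.1 h

/-- No triangle in RR. -/
lemma no_RRR {u x y : U κ t} (h1 : RR u x) (h2 : RR u y) (h3 : RR x y) : False := by
  obtain ⟨a1, b1, c1⟩ := h1
  obtain ⟨a2, b2, c2⟩ := h2
  obtain ⟨a3, b3, c3⟩ := h3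
  rcases c1 with c1 | c1 <;> rcases c2 with c2 | c2 <;> rcases c3 with c3 | c3
  · exact b3 (agr_eq (agr_trans (agr_symm c1) c2) c3 a1)
  · exact b3 (agr_eq (agr_trans (agr_symm c1) c2) c3 a2)
  · -- u,x agree off u; u,y agree off y; x,y agree off x
    -- at u: x u = y u (c3, u ≠ x), y u = u u (c2)
    apply b1
    funext j
    by_cases hj : j = u.2.1
    · subst hj
      rw [c2 _ a2, c3 _ a1]
    · exact c1 j hj
  · -- u,x off u; u,y off y; x,y off y
    apply b1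
    funext j
    by_cases hj : j = u.2.1
    · subst hj
      rw [c2 _ a2, c3 _ a2]
    · exact c1 j hj
  · -- u,x off x; u,y off u; x,y off x
    apply b2
    funext j
    by_cases hj : j = u.2.1
    · subst hj
      rw [c1 _ a1, c3 _ a1]
    · exact c2 j hj
  · apply b2
    funext j
    by_cases hj : j = u.2.1
    · subst hj
      rw [c1 _ a1, c3 _ a2]
    · exact c2 j hj
  · -- u,x off x; u,y off y; x,y off x
    apply b2
    funext j
    by_cases hj : j = y.2.1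
    · subst hj
      rw [c1 _ a3.symm, c3 _ a3.symm]
    · exact c2 j hj
  · -- u,x off x; u,y off y; x,y off y
    apply b1
    funext j
    by_cases hj : j = x.2.1
    · subst hj
      rw [c2 _ a3, c3 _ a3]
    · exact c1 j hj

/-- composition of two colour-0 steps stays in the closed neighbourhood -/
lemma Cl_of_Bs_Bs {u x y : U κ t} (h1 : Bs u x) (h2 : Bs x y) : Cl u y := by
  rcases h1 with h1 | ⟨h1, h1'⟩ <;> rcases h2 with h2 | ⟨h2, h2'⟩
  · exact Or.inl (by rw [h1, h2]; exact agr_rfl _ _)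
  · refine Or.inr ?_
    rw [h1, ← h2]; exact h2'
  · refine Or.inl ?_
    rw [← h2]; exact h1'
  · refine Or.inl (agr_trans h1' ?_)
    rw [h1]; exact h2'

end levelU

section countU

variable {κ t : ℕ}

lemma cn_A2 (u : U κ t) : cn (A2 u) = κ * t := by
  have h : cn (A2 u) = cn (fun z : Fin (κ + 1) × Fin t => z.1 ≠ u.2.1) := by
    refine cn_param (fun z => (u.1, z.1, z.2)) ?_ ?_
    · rintro ⟨a, b⟩ ⟨c, d⟩ _ _ hxy
      simpa using hxy
    · rintro ⟨g, q, i⟩
      constructor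
      · rintro ⟨h1, h2⟩
        exact ⟨(q, i), fun h => h2 h.symm, by simpa using h1⟩
      · rintro ⟨z, hz, hzy⟩
        simp only [Prod.mk.injEq] at hzy
        obtain ⟨rfl, rfl, rfl⟩ := hzy
        exact ⟨rfl, fun h => hz h.symm⟩
  rw [h, cn_fst (fun x : Fin (κ + 1) => x ≠ u.2.1), cn_ne, Fintype.card_fin]

/-- all elements with a prescribed state -/
lemma cn_state (g : Fin (κ + 1) → Fin (κ + 1)) :
    cn (fun x : U κ t => x.1 = g) = (κ + 1) * t := by
  have h : cn (fun x : U κ t => x.1 = g) = cn (fun _ : Fin (κ + 1) × Fin t => True) := by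
    refine cn_param (fun z => (g, z.1, z.2)) ?_ ?_
    · rintro ⟨a, b⟩ ⟨c, d⟩ _ _ hxy
      simpa using hxy
    · rintro ⟨g', q, i⟩
      constructor
      · intro h1
        exact ⟨(q, i), trivial, by simpa using h1.symm⟩
      · rintro ⟨z, _, hzy⟩
        simp only [Prod.mk.injEq] at hzy
        obtain ⟨rfl, rfl, rfl⟩ := hzy
        rfl
  rw [h, cn_true]
  simp

/-- elements at position p agreeing with g off p -/
lemma cn_pos (g : Fin (κ + 1) → Fin (κ + 1)) (p : Fin (κ + 1)) :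
    cn (fun x : U κ t => x.2.1 = p ∧ agr g x.1 p) = (κ + 1) * t := by
  classical
  have h : cn (fun x : U κ t => x.2.1 = p ∧ agr g x.1 p) =
      cn (fun _ : Fin (κ + 1) × Fin t => True) := by
    refine cn_param (fun z => (Function.update g p z.1, p, z.2)) ?_ ?_
    · rintro ⟨a, b⟩ ⟨c, d⟩ _ _ hxy
      simp only [Prod.mk.injEq, true_and] at hxy
      have := congrFun hxy.1 p
      simp only [Function.update_self] at this
      simp [this, hxy.2]
    · rintro ⟨g', q, i⟩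
      constructor
      · rintro ⟨h1, h2⟩
        simp only at h1 h2
        refine ⟨(g' p, i), trivial, ?_⟩
        refine Prod.ext ?_ (Prod.ext h1.symm rfl)
        simp only
        funext j
        by_cases hj : j = p
        · subst hj; simp
        · rw [Function.update_of_ne hj]; exact h2 j hj
      · rintro ⟨z, _, hzy⟩
        simp only [Prod.mk.injEq] at hzy
        obtain ⟨h1, h2, h3⟩ := hzy
        refine ⟨h2.symm, ?_⟩
        intro j hj
        simp only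
        rw [← h1, Function.update_of_ne hj]
  rw [h, cn_true]
  simp

/-- elements at position p agreeing with g off p, different state -/
lemma cn_posne (g : Fin (κ + 1) → Fin (κ + 1)) (p : Fin (κ + 1)) :
    cn (fun x : U κ t => x.2.1 = p ∧ agr g x.1 p ∧ g ≠ x.1) = κ * t := by
  classical
  have h : cn (fun x : U κ t => x.2.1 = p ∧ agr g x.1 p ∧ g ≠ x.1) =
      cn (fun z : Fin (κ + 1) × Fin t => z.1 ≠ g p) := by
    refine cn_param (fun z => (Function.update g p z.1, p, z.2)) ?_ ?_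
    · rintro ⟨a, b⟩ ⟨c, d⟩ _ _ hxy
      simp only [Prod.mk.injEq, true_and] at hxy
      have := congrFun hxy.1 p
      simp only [Function.update_self] at this
      simp [this, hxy.2]
    · rintro ⟨g', q, i⟩
      constructor
      · rintro ⟨h1, h2, h3⟩
        simp only at h1 h2 h3
        refine ⟨(g' p, i), ?_, ?_⟩
        · intro h
          apply h3
          funext j
          by_cases hj : j = p
          · subst hj; exact h.symm
          · exact h2 j hj
        · refine Prod.ext ?_ (Prod.ext h1.symm rfl)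
          simp only
          funext j
          by_cases hj : j = p
          · subst hj; simp
          · rw [Function.update_of_ne hj]; exact h2 j hj
      · rintro ⟨z, hz, hzy⟩
        simp only [Prod.mk.injEq] at hzy
        obtain ⟨h1, h2, h3⟩ := hzy
        refine ⟨h2.symm, ?_, ?_⟩
        · intro j hj
          simp only
          rw [← h1, Function.update_of_ne hj]
        · intro h
          simp only at h
          apply hz
          have := congrFun h1 p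
          rw [Function.update_self] at this
          rw [this, ← h]
  rw [h, cn_fst (fun x : Fin (κ + 1) => x ≠ g p), cn_ne, Fintype.card_fin]

lemma cn_Bs (u : U κ t) : cn (Bs u) = (2 * κ + 1) * t := by
  have h : cn (Bs u) = cn (fun x : U κ t => x.1 = u.1 ∨
      (x.2.1 = u.2.1 ∧ agr u.1 x.1 u.2.1 ∧ u.1 ≠ x.1)) := by
    refine cn_congr fun x => ?_
    unfold Bs
    constructor
    · rintro (h | ⟨h1, h2⟩)
      · exact Or.inl h.symm
      · by_cases h3 : u.1 = x.1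
        · exact Or.inl h3.symm
        · exact Or.inr ⟨h1.symm, h2, h3⟩
    · rintro (h | ⟨h1, h2, _⟩)
      · exact Or.inl h.symm
      · exact Or.inr ⟨h1.symm, h2⟩
  rw [h, cn_or_eq (fun x h h' => h'.2.2 h.symm), cn_state, cn_posne]
  ring

lemma cn_B1 (u : U κ t) : cn (B1 u) + 1 = (2 * κ + 1) * t := by
  rw [← cn_Bs u, cn_erase (p := Bs u) u (Or.inl rfl)]
  congr 1
  refine cn_congr fun x => ?_
  unfold B1
  constructor
  · rintro ⟨h1, h2⟩; exact ⟨fun h => h1 h.symm, h2⟩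
  · rintro ⟨h1, h2⟩; exact ⟨fun h => h1 h.symm, h2⟩

lemma cn_shift (u : U κ t) : cn (fun x : U κ t => u.2.1 ≠ x.2.1 ∧ u.1 ≠ x.1 ∧
    agr u.1 x.1 x.2.1) = κ * (κ * t) := by
  classical
  have h : cn (fun x : U κ t => u.2.1 ≠ x.2.1 ∧ u.1 ≠ x.1 ∧ agr u.1 x.1 x.2.1) =
      cn (fun z : Fin (κ + 1) × (Fin (κ + 1) × Fin t) => z.1 ≠ u.2.1 ∧
        (fun a (b : Fin (κ + 1) × Fin t) => b.1 ≠ u.1 a) z.1 z.2) := by
    refine cn_param (fun z => (Function.update u.1 z.1 z.2.1, z.1, z.2.2)) ?_ ?_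
    · rintro ⟨a, b, c⟩ ⟨a', b', c'⟩ _ _ hxy
      simp only [Prod.mk.injEq] at hxy
      obtain ⟨h1, h2, h3⟩ := hxy
      subst h2
      have := congrFun h1 a
      simp only [Function.update_self] at this
      simp [this, h3]
    · rintro ⟨g', q, i⟩
      constructor
      · rintro ⟨h1, h2, h3⟩
        simp only at h1 h2 h3
        refine ⟨(q, g' q, i), ⟨fun h => h1 h.symm, ?_⟩, ?_⟩
        · intro h
          apply h2
          funext j
          by_cases hj : j = q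
          · subst hj; exact h.symm
          · exact h3 j hj
        · refine Prod.ext ?_ (Prod.ext rfl rfl)
          simp only
          funext j
          by_cases hj : j = q
          · subst hj; simp
          · rw [Function.update_of_ne hj]; exact h3 j hj
      · rintro ⟨z, ⟨hz1, hz2⟩, hzy⟩
        simp only [Prod.mk.injEq] at hzy
        obtain ⟨h1, h2, h3⟩ := hzy
        refine ⟨?_, ?_, ?_⟩
        · simp only
          rw [← h2]; exact fun h => hz1 h.symm
        · intro h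
          simp only at h
          apply hz2
          have := congrFun h1 z.1
          rw [Function.update_self] at this
          rw [this, ← h]
        · intro j hj
          simp only at hj ⊢
          rw [← h1, Function.update_of_ne (by rw [h2]; exact hj)]
  rw [h, cn_guard_eq (fun x : Fin (κ + 1) => x ≠ u.2.1)
    (fun a (b : Fin (κ + 1) × Fin t) => b.1 ≠ u.1 a) (κ * t), cn_ne]
  intro a _
  rw [cn_fst (fun x : Fin (κ + 1) => x ≠ u.1 a), cn_ne, Fintype.card_fin]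

lemma cn_switch (u : U κ t) : cn (fun x : U κ t => u.2.1 ≠ x.2.1 ∧ u.1 ≠ x.1 ∧
    agr u.1 x.1 u.2.1) = κ * (κ * t) := by
  classical
  have h : cn (fun x : U κ t => u.2.1 ≠ x.2.1 ∧ u.1 ≠ x.1 ∧ agr u.1 x.1 u.2.1) =
      cn (fun z : Fin (κ + 1) × (Fin (κ + 1) × Fin t) => z.1 ≠ u.2.1 ∧
        (fun (_ : Fin (κ + 1)) (b : Fin (κ + 1) × Fin t) => b.1 ≠ u.1 u.2.1) z.1 z.2) := by
    refine cn_param (fun z => (Function.update u.1 u.2.1 z.2.1, z.1, z.2.2)) ?_ ?_
    · rintro ⟨a, b, c⟩ ⟨a', b', c'⟩ _ _ hxy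
      simp only [Prod.mk.injEq] at hxy
      obtain ⟨h1, h2, h3⟩ := hxy
      subst h2
      have := congrFun h1 u.2.1
      simp only [Function.update_self] at this
      simp [this, h3]
    · rintro ⟨g', q, i⟩
      constructor
      · rintro ⟨h1, h2, h3⟩
        simp only at h1 h2 h3
        refine ⟨(q, g' u.2.1, i), ⟨fun h => h1 h.symm, ?_⟩, ?_⟩
        · intro h
          apply h2
          funext j
          by_cases hj : j = u.2.1
          · rw [hj]; exact h.symm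
          · exact h3 j hj
        · refine Prod.ext ?_ (Prod.ext rfl rfl)
          simp only
          funext j
          by_cases hj : j = u.2.1
          · rw [hj]; simp
          · rw [Function.update_of_ne hj]; exact h3 j hj
      · rintro ⟨z, ⟨hz1, hz2⟩, hzy⟩
        simp only [Prod.mk.injEq] at hzy
        obtain ⟨h1, h2, h3⟩ := hzy
        refine ⟨?_, ?_, ?_⟩
        · simp only
          rw [← h2]; exact fun h => hz1 h.symm
        · intro h
          simp only at h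
          apply hz2
          have := congrFun h1 u.2.1
          rw [Function.update_self] at this
          rw [this, ← h]
        · intro j hj
          simp only
          rw [← h1, Function.update_of_ne hj]
  rw [h, cn_guard_eq (fun x : Fin (κ + 1) => x ≠ u.2.1)
    (fun (_ : Fin (κ + 1)) (b : Fin (κ + 1) × Fin t) => b.1 ≠ u.1 u.2.1) (κ * t), cn_ne]
  intro a _
  rw [cn_fst (fun x : Fin (κ + 1) => x ≠ u.1 u.2.1), cn_ne, Fintype.card_fin]

lemma cn_RR (u : U κ t) : cn (RR u) = 2 * (κ * (κ * t)) := by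
  have h : cn (RR u) = cn (fun x : U κ t =>
      (u.2.1 ≠ x.2.1 ∧ u.1 ≠ x.1 ∧ agr u.1 x.1 x.2.1) ∨
      (u.2.1 ≠ x.2.1 ∧ u.1 ≠ x.1 ∧ agr u.1 x.1 u.2.1)) := by
    refine cn_congr fun x => ?_
    unfold RR
    tauto
  rw [h, cn_or_eq, cn_shift, cn_switch]
  · ring
  · rintro x ⟨h1, h2, h3⟩ ⟨_, _, h4⟩
    exact h2 (agr_eq h4 h3 h1)

/-- ordered colour-0 pairs inside the closed neighbourhood: a fibre over RR -/
lemma fibre_B1_RR {u x : U κ t} (h : RR u x) :
    (κ + 1) * t ≤ cn (fun y => Cl u y ∧ B1 x y) + 1 := by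
  obtain ⟨h1, h2, h3 | h3⟩ := h
  · -- agree off u: take the state clique of x
    rw [← cn_state x.1, cn_erase (p := fun y : U κ t => y.1 = x.1) x rfl]
    refine Nat.add_le_add_right (cn_le fun y hy => ?_) 1
    refine ⟨Or.inl ?_, fun h => hy.1 h.symm, Or.inl hy.2.symm⟩
    rw [hy.2]; exact h3
  · rw [← cn_pos x.1 x.2.1,
      cn_erase (p := fun y : U κ t => y.2.1 = x.2.1 ∧ agr x.1 y.1 x.2.1) x ⟨rfl, agr_rfl _ _⟩]
    refine Nat.add_le_add_right (cn_le fun y hy => ?_) 1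
    obtain ⟨hy1, hy2, hy3⟩ := hy
    refine ⟨Or.inr ?_, fun h => hy1 h.symm, Or.inr ⟨hy2.symm, hy3⟩⟩
    rw [hy2]
    exact agr_trans h3 hy3

lemma fibre_B1_A2 {u x : U κ t} (h : A2 u x) :
    κ * t ≤ cn (fun y => A2 u y ∧ B1 x y) + 1 := by
  rw [← cn_A2 u, cn_erase (p := A2 u) x h]
  refine Nat.add_le_add_right (cn_le fun y hy => ?_) 1
  exact ⟨hy.2, fun h => hy.1 h.symm, Or.inl (h.1.symm.trans hy.2.1)⟩

lemma fibre_RR {u x : U κ t} (h : RR u x) :
    cn (fun y => Cl u y ∧ RR x y) ≤ κ * t := by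
  obtain ⟨h1, h2, h3⟩ := h
  have hBs : ∀ y, Cl u y → RR x y → Bs u y := by
    intro y hy hxy
    rcases Cl_iff.1 hy with h | h
    · exact h
    · exact (no_RRR ⟨h1, h2, h3⟩ h hxy).elim
  rcases h3 with h3 | h3
  · -- x agrees with u off u.2.1; y is at position u.2.1
    rw [← cn_posne (t := t) x.1 u.2.1]
    refine cn_le fun y hy => ?_
    obtain ⟨hy1, hy2⟩ := hy
    have hb := hBs y hy1 hy2
    obtain ⟨k1, k2, k3⟩ := hy2
    have key : y.2.1 = u.2.1 := by
      rcases hb with hb | ⟨hb, _⟩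
      · -- y.1 = u.1
        by_contra hne
        rcases k3 with k3 | k3
        · apply h2
          refine agr_eq h3 ?_ h1
          rw [hb]; exact agr_symm k3
        · apply h2
          refine agr_eq h3 ?_ (fun h => hne h.symm)
          rw [hb]; exact agr_symm k3
      · exact hb.symm
    refine ⟨key, ?_, k2⟩
    rcases hb with hb | ⟨hb, hb'⟩
    · rw [← hb]; exact agr_symm h3
    · exact agr_trans (agr_symm h3) hb'
  · -- x agrees with u off x.2.1; then y has the state of u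
    rw [← cn_A2 (t := t) (u.1, x.2.1, x.2.2)]
    refine cn_le fun y hy => ?_
    obtain ⟨hy1, hy2⟩ := hy
    have hb := hBs y hy1 hy2
    obtain ⟨k1, k2, k3⟩ := hy2
    refine ⟨?_, k1⟩
    simp only
    rcases hb with hb | ⟨hb, hb'⟩
    · exact hb
    · -- agree off u.2.1, y at u.2.1
      rcases k3 with k3 | k3
      · -- x,y agree off x.2.1
        exact agr_eq hb' (agr_trans h3 k3) h1
      · -- x,y agree off y.2.1 = u.2.1
        exfalso
        apply h2
        refine agr_eq (p := x.2.1) (q := u.2.1) h3 ?_ (fun h => h1 h.symm)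
        rw [← hb] at k3
        exact agr_trans hb' (agr_symm k3)

/-- colour-2 pairs inside the closed colour-0 neighbourhood -/
lemma cn_RR_Bs (u : U κ t) :
    cn (fun z : U κ t × U κ t => (Bs u z.1 ∧ Bs u z.2) ∧ RR z.1 z.2) ≤
      2 * (κ * t * (κ * t)) := by
  have h : cn (fun z : U κ t × U κ t => (Bs u z.1 ∧ Bs u z.2) ∧ RR z.1 z.2) ≤
      cn (fun z : U κ t × U κ t =>
        (A2 u z.1 ∧ (z.2.2.1 = u.2.1 ∧ agr u.1 z.2.1 u.2.1 ∧ u.1 ≠ z.2.1)) ∨
        ((z.1.2.1 = u.2.1 ∧ agr u.1 z.1.1 u.2.1 ∧ u.1 ≠ z.1.1) ∧ A2 u z.2)) := by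
    refine cn_le fun z hz => ?_
    obtain ⟨⟨h1, h2⟩, h3, h4, h5⟩ := hz
    rcases h1 with h1 | ⟨h1, h1'⟩ <;> rcases h2 with h2 | ⟨h2, h2'⟩
    · exact (h4 (h1.symm.trans h2)).elim
    · exact Or.inl ⟨⟨h1, fun h => h3 (h.symm.trans h2)⟩, h2.symm, h2',
        fun h => h4 (h1.symm.trans h)⟩
    · exact Or.inr ⟨⟨h1.symm, h1', fun h => h4 (h.symm.trans h2)⟩,
        ⟨h2, fun h => h3 (h1.symm.trans h)⟩⟩
    · exact (h3 (h1.symm.trans h2)).elim
  refine h.trans ((cn_or_le _ _).trans ?_)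
  rw [cn_prod (A2 u) (fun y : U κ t => y.2.1 = u.2.1 ∧ agr u.1 y.1 u.2.1 ∧ u.1 ≠ y.1),
    cn_prod (fun y : U κ t => y.2.1 = u.2.1 ∧ agr u.1 y.1 u.2.1 ∧ u.1 ≠ y.1) (A2 u),
    cn_A2, cn_posne]
  omega

/-- T1: lower bound -/
lemma T1_ge (u : U κ t) :
    cn (Bs u) * cn (B1 u) + cn (RR u) * ((κ + 1) * t - 1) ≤
      cn (fun z : U κ t × U κ t => (Cl u z.1 ∧ Cl u z.2) ∧ B1 z.1 z.2) := by
  have h1 : cn (Bs u) * cn (B1 u) ≤
      cn (fun z : U κ t × U κ t => Bs u z.1 ∧ (fun x y => Cl u y ∧ B1 x y) z.1 z.2) := by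
    refine cn_guard_ge (Bs u) (fun x y => Cl u y ∧ B1 x y) _ fun x hx => ?_
    have : cn (B1 u) = cn (B1 x) := by
      have e1 := cn_B1 u
      have e2 := cn_B1 x
      omega
    rw [this]
    refine cn_le fun y hy => ?_
    exact ⟨Cl_of_Bs_Bs hx hy.2, hy⟩
  have h2 : cn (RR u) * ((κ + 1) * t - 1) ≤
      cn (fun z : U κ t × U κ t => RR u z.1 ∧ (fun x y => Cl u y ∧ B1 x y) z.1 z.2) := by
    refine cn_guard_ge (RR u) (fun x y => Cl u y ∧ B1 x y) _ fun x hx => ?_
    have := fibre_B1_RR hx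
    omega
  refine (Nat.add_le_add h1 h2).trans ?_
  rw [← cn_or_eq (fun z h h' => Bs_RR h.1 h'.1)]
  refine cn_le fun z hz => ?_
  rcases hz with ⟨h, h', h''⟩ | ⟨h, h', h''⟩
  · exact ⟨⟨Cl_of_Bs h, h'⟩, h''⟩
  · exact ⟨⟨Cl_iff.2 (Or.inr h), h'⟩, h''⟩

/-- T3: upper bound -/
lemma T3_le (u : U κ t) :
    cn (fun z : U κ t × U κ t => (Cl u z.1 ∧ Cl u z.2) ∧ RR z.1 z.2) ≤
      2 * (2 * (κ * (κ * t)) * (κ * t)) + 2 * (κ * t * (κ * t)) := by
  have hE1 : cn (fun z : U κ t × U κ t => RR u z.1 ∧ (fun x y => Cl u y ∧ RR x y) z.1 z.2) ≤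
      2 * (κ * (κ * t)) * (κ * t) := by
    rw [← cn_RR u]
    exact cn_guard_le (RR u) (fun x y => Cl u y ∧ RR x y) _ fun x hx => fibre_RR hx
  have hE2 : cn (fun z : U κ t × U κ t => RR u z.2 ∧ (Cl u z.1 ∧ RR z.2 z.1)) ≤
      2 * (κ * (κ * t)) * (κ * t) := by
    rw [cn_swap (fun a b : U κ t => RR u a ∧ (Cl u b ∧ RR a b))]
    exact hE1
  have h : cn (fun z : U κ t × U κ t => (Cl u z.1 ∧ Cl u z.2) ∧ RR z.1 z.2) ≤
      cn (fun z : U κ t × U κ t =>
        ((RR u z.1 ∧ (Cl u z.2 ∧ RR z.1 z.2)) ∨ (RR u z.2 ∧ (Cl u z.1 ∧ RR z.2 z.1))) ∨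
        ((Bs u z.1 ∧ Bs u z.2) ∧ RR z.1 z.2)) := by
    refine cn_le fun z hz => ?_
    obtain ⟨⟨h1, h2⟩, h3⟩ := hz
    rcases Cl_iff.1 h1 with g1 | g1
    · rcases Cl_iff.1 h2 with g2 | g2
      · exact Or.inr ⟨⟨g1, g2⟩, h3⟩
      · exact Or.inl (Or.inr ⟨g2, h1, RR_symm h3⟩)
    · exact Or.inl (Or.inl ⟨g1, h2, h3⟩)
  refine h.trans ((cn_or_le _ _).trans ?_)
  have h4 := cn_or_le (fun z : U κ t × U κ t => RR u z.1 ∧ (Cl u z.2 ∧ RR z.1 z.2))
    (fun z : U κ t × U κ t => RR u z.2 ∧ (Cl u z.1 ∧ RR z.2 z.1))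
  have h5 := cn_RR_Bs u
  have h6 := hE1
  simp only at h6
  omega

end countU

section bridge2

variable {V : Type} [Fintype V] {k : ℕ}

lemma colourDegree_cn (G : SimpleGraph V) (f : Sym2 V → Fin k) (j : Fin k) (v : V) :
    colourDegree G f j v = cn (fun y : V => G.Adj v y ∧ f s(v, y) = j) := by
  rw [colourDegree_eq]
  unfold cn
  congr!

lemma closedCount_cn (G : SimpleGraph V) (f : Sym2 V → Fin k) (j : Fin k) (v : V) :
    2 * closedCount G f j v = cn (fun p : V × V =>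
      (G.Adj p.1 p.2 ∧ f s(p.1, p.2) = j) ∧ (p.1 = v ∨ G.Adj v p.1) ∧
        (p.2 = v ∨ G.Adj v p.2)) := by
  rw [closedCount_eq]
  unfold cn
  congr!

end bridge2

section levelV

variable {κ t d m : ℕ}

abbrev VV (κ t d m : ℕ) := U κ t × ((Bool × Fin d) × (Bool × Fin m))

def C0 (x y : VV κ t d m) : Prop := B1 x.1 y.1 ∧ x.2 = y.2
def C1 (x y : VV κ t d m) : Prop := A2 x.1 y.1 ∧ x.2.1.1 ≠ y.2.1.1 ∧ x.2.2 = y.2.2
def C2 (x y : VV κ t d m) : Prop :=
  (RR x.1 y.1 ∧ x.2 = y.2) ∨ (x.1 = y.1 ∧ x.2.1 = y.2.1 ∧ x.2.2.1 ≠ y.2.2.1)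

lemma C0_symm {x y : VV κ t d m} (h : C0 x y) : C0 y x := ⟨B1_symm h.1, h.2.symm⟩
lemma C1_symm {x y : VV κ t d m} (h : C1 x y) : C1 y x := ⟨A2_symm h.1, h.2.1.symm, h.2.2.symm⟩
lemma C2_symm {x y : VV κ t d m} (h : C2 x y) : C2 y x := by
  rcases h with h | h
  · exact Or.inl ⟨RR_symm h.1, h.2.symm⟩
  · exact Or.inr ⟨h.1.symm, h.2.1.symm, h.2.2.symm⟩

lemma C01 {x y : VV κ t d m} (h : C0 x y) (h' : C1 x y) : False := h'.2.1 (by rw [h.2])
lemma C02 {x y : VV κ t d m} (h : C0 x y) (h' : C2 x y) : False := by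
  rcases h' with h' | h'
  · exact Bs_RR h.1.2 h'.1
  · exact h.1.1 h'.1
lemma C12 {x y : VV κ t d m} (h : C1 x y) (h' : C2 x y) : False := by
  rcases h' with h' | h'
  · exact h.2.1 (by rw [h'.2])
  · exact h.2.1 (by rw [h'.2.1])

/-- The flip graph. -/
def GG (κ t d m : ℕ) : SimpleGraph (VV κ t d m) where
  Adj x y := C0 x y ∨ C1 x y ∨ C2 x y
  symm := ⟨by
    intro x y h
    rcases h with h | h | h
    · exact Or.inl (C0_symm h)
    · exact Or.inr (Or.inl (C1_symm h))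
    · exact Or.inr (Or.inr (C2_symm h))⟩
  loopless := ⟨by
    intro x h
    rcases h with h | h | (h | h)
    · exact h.1.1 rfl
    · exact h.1.2 rfl
    · exact h.1.1 rfl
    · exact h.2.2 rfl⟩

open Classical in
/-- Its colouring. -/
noncomputable def ff (κ t d m : ℕ) : Sym2 (VV κ t d m) → Fin 3 :=
  Sym2.lift ⟨fun x y => if C0 x y then 0 else if C1 x y then 1 else 2, by
    intro x y
    have h0 : C0 x y ↔ C0 y x := ⟨C0_symm, C0_symm⟩
    have h1 : C1 x y ↔ C1 y x := ⟨C1_symm, C1_symm⟩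
    simp only [h0, h1]⟩

lemma ff0 (x y : VV κ t d m) :
    ((GG κ t d m).Adj x y ∧ ff κ t d m s(x, y) = 0) ↔ C0 x y := by
  constructor
  · rintro ⟨h1, h2⟩
    by_contra h0
    unfold ff at h2
    simp only [Sym2.lift_mk, h0, if_false] at h2
    split_ifs at h2
    · exact absurd h2 (by decide)
    · exact absurd h2 (by decide)
  · intro h
    exact ⟨Or.inl h, by simp [ff, h]⟩

lemma ff1 (x y : VV κ t d m) :
    ((GG κ t d m).Adj x y ∧ ff κ t d m s(x, y) = 1) ↔ C1 x y := by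
  constructor
  · rintro ⟨h1, h2⟩
    by_contra h0
    unfold ff at h2
    simp only [Sym2.lift_mk, h0, if_false] at h2
    split_ifs at h2
    · exact absurd h2 (by decide)
    · exact absurd h2 (by decide)
  · intro h
    exact ⟨Or.inr (Or.inl h), by
      have h0 : ¬ C0 x y := fun h' => C01 h' h
      simp [ff, h, h0]⟩

lemma ff2 (x y : VV κ t d m) :
    ((GG κ t d m).Adj x y ∧ ff κ t d m s(x, y) = 2) ↔ C2 x y := by
  constructor
  · rintro ⟨h1, h2⟩
    rcases h1 with h | h | h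
    · simp [ff, h] at h2
    · have h0 : ¬ C0 x y := fun h' => C01 h' h
      simp [ff, h, h0] at h2
    · exact h
  · intro h
    exact ⟨Or.inr (Or.inr h), by
      have h0 : ¬ C0 x y := fun h' => C02 h' h
      have h1 : ¬ C1 x y := fun h' => C12 h' h
      simp [ff, h0, h1]⟩

/-- closed neighbourhood -/
def Nb (v x : VV κ t d m) : Prop := x = v ∨ (GG κ t d m).Adj v x

lemma Nb_iff (v x : VV κ t d m) : Nb v x ↔ (x.2 = v.2 ∧ Cl v.1 x.1) ∨
    (A2 v.1 x.1 ∧ v.2.1.1 ≠ x.2.1.1 ∧ x.2.2 = v.2.2) ∨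
    (x.1 = v.1 ∧ x.2.1 = v.2.1 ∧ v.2.2.1 ≠ x.2.2.1) := by
  constructor
  · rintro (h | h | h | (h | h))
    · subst h
      exact Or.inl ⟨rfl, Or.inl (agr_rfl _ _)⟩
    · exact Or.inl ⟨h.2.symm, Cl_of_Bs h.1.2⟩
    · exact Or.inr (Or.inl ⟨h.1, h.2.1, h.2.2.symm⟩)
    · exact Or.inl ⟨h.2.symm, Cl_iff.2 (Or.inr h.1)⟩
    · exact Or.inr (Or.inr ⟨h.1.symm, h.2.1.symm, h.2.2⟩)
  · rintro (h | h | h)
    · rcases Cl_iff.1 h.2 with g | g
      · by_cases hx : v.1 = x.1
        · exact Or.inl (Prod.ext hx.symm h.1)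
        · exact Or.inr (Or.inl ⟨⟨hx, g⟩, h.1.symm⟩)
      · exact Or.inr (Or.inr (Or.inr (Or.inl ⟨g, h.1.symm⟩)))
    · exact Or.inr (Or.inr (Or.inl ⟨h.1, h.2.1, h.2.2.symm⟩))
    · exact Or.inr (Or.inr (Or.inr (Or.inr ⟨h.1.symm, h.2.1.symm, h.2.2⟩)))

lemma deg0 (v : VV κ t d m) : cn (C0 v) = cn (B1 v.1) := by
  refine cn_param (fun x => (x, v.2)) ?_ ?_
  · intro x y _ _ h
    exact (Prod.mk.inj h).1
  · rintro ⟨x, w⟩
    constructor
    · rintro ⟨h1, h2⟩
      exact ⟨x, h1, Prod.ext rfl h2⟩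
    · rintro ⟨z, h1, h2⟩
      obtain ⟨rfl, rfl⟩ := Prod.mk.inj h2
      exact ⟨h1, rfl⟩

lemma deg1 (v : VV κ t d m) : cn (C1 v) = cn (A2 v.1) * d := by
  have h : cn (C1 v) = cn (fun z : U κ t × (Bool × Fin d) => A2 v.1 z.1 ∧
      v.2.1.1 ≠ z.2.1) := by
    refine cn_param (fun z => (z.1, (z.2, v.2.2))) ?_ ?_
    · rintro ⟨a, b⟩ ⟨a', b'⟩ _ _ h
      simp only [Prod.mk.injEq, and_true] at h
      exact Prod.ext h.1 h.2
    · rintro ⟨x, w, y⟩
      constructor
      · rintro ⟨h1, h2, h3⟩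
        exact ⟨(x, w), ⟨h1, h2⟩, Prod.ext rfl (Prod.ext rfl h3)⟩
      · rintro ⟨z, ⟨h1, h2⟩, h3⟩
        obtain ⟨rfl, h4⟩ := Prod.mk.inj h3
        obtain ⟨rfl, rfl⟩ := Prod.mk.inj h4
        exact ⟨h1, h2, rfl⟩
  rw [h, cn_prod (A2 v.1) (fun w : Bool × Fin d => v.2.1.1 ≠ w.1), cn_bool_ne]

lemma deg2 (v : VV κ t d m) : cn (C2 v) = cn (RR v.1) + m := by
  have h1 : cn (fun x : VV κ t d m => RR v.1 x.1 ∧ v.2 = x.2) = cn (RR v.1) := by
    refine cn_param (fun x => (x, v.2)) ?_ ?_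
    · intro x y _ _ h
      exact (Prod.mk.inj h).1
    · rintro ⟨x, w⟩
      constructor
      · rintro ⟨h1, h2⟩
        exact ⟨x, h1, Prod.ext rfl h2⟩
      · rintro ⟨z, h1, h2⟩
        obtain ⟨rfl, rfl⟩ := Prod.mk.inj h2
        exact ⟨h1, rfl⟩
  have h2 : cn (fun x : VV κ t d m => v.1 = x.1 ∧ v.2.1 = x.2.1 ∧ v.2.2.1 ≠ x.2.2.1) = m := by
    refine Eq.trans ?_ (cn_bool_ne v.2.2.1 m)
    refine cn_param (fun y => (v.1, (v.2.1, y))) ?_ ?_
    · intro x y _ _ h
      exact (Prod.mk.inj (Prod.mk.inj h).2).2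
    · rintro ⟨x, w, y⟩
      constructor
      · rintro ⟨h1, h2, h3⟩
        exact ⟨y, h3, Prod.ext h1 (Prod.ext h2 rfl)⟩
      · rintro ⟨z, h1, h2⟩
        obtain ⟨h3, h4⟩ := Prod.mk.inj h2
        obtain ⟨h5, h6⟩ := Prod.mk.inj h4
        subst h6
        exact ⟨h3, h5, h1⟩
  unfold C2
  rw [cn_or_eq, h1, h2]
  intro x hx hy
  exact hy.2.2 (by rw [hx.2])

/-- lower bound for colour 0 -/
lemma P0_ge (v : VV κ t d m) :
    cn (Bs v.1) * cn (B1 v.1) + cn (RR v.1) * ((κ + 1) * t - 1) +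
      d * (κ * t * (κ * t - 1)) ≤
    cn (fun z : VV κ t d m × VV κ t d m => C0 z.1 z.2 ∧ Nb v z.1 ∧ Nb v z.2) := by
  have h1 : cn (Bs v.1) * cn (B1 v.1) + cn (RR v.1) * ((κ + 1) * t - 1) ≤
      cn (fun z : VV κ t d m × VV κ t d m => (z.1.2 = v.2 ∧ z.2.2 = v.2) ∧
        (Cl v.1 z.1.1 ∧ Cl v.1 z.2.1) ∧ B1 z.1.1 z.2.1) := by
    refine (T1_ge v.1).trans ?_
    refine cn_param_ge (fun z => ((z.1, v.2), (z.2, v.2))) ?_ ?_
    · rintro ⟨a, b⟩ ⟨a', b'⟩ _ _ h
      obtain ⟨h1, h2⟩ := Prod.mk.inj h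
      exact Prod.ext (Prod.mk.inj h1).1 (Prod.mk.inj h2).1
    · rintro ⟨a, b⟩ h
      exact ⟨⟨rfl, rfl⟩, h⟩
  have h2 : d * (κ * t * (κ * t - 1)) ≤
      cn (fun z : VV κ t d m × VV κ t d m => (v.2.1.1 ≠ z.1.2.1.1 ∧ z.1.2 = z.2.2 ∧
        z.1.2.2 = v.2.2) ∧ (A2 v.1 z.1.1 ∧ (A2 v.1 z.2.1 ∧ B1 z.1.1 z.2.1))) := by
    have h3 : κ * t * (κ * t - 1) ≤ cn (fun z : U κ t × U κ t =>
        A2 v.1 z.1 ∧ (fun x y => A2 v.1 y ∧ B1 x y) z.1 z.2) := by
      rw [← cn_A2 v.1]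
      refine cn_guard_ge (A2 v.1) (fun x y => A2 v.1 y ∧ B1 x y) _ fun x hx => ?_
      have := fibre_B1_A2 hx
      rw [cn_A2]
      omega
    calc d * (κ * t * (κ * t - 1)) ≤
        d * cn (fun z : U κ t × U κ t =>
          A2 v.1 z.1 ∧ (fun x y => A2 v.1 y ∧ B1 x y) z.1 z.2) := Nat.mul_le_mul_left _ h3
      _ = cn (fun z : (Bool × Fin d) × (U κ t × U κ t) => v.2.1.1 ≠ z.1.1 ∧
          (A2 v.1 z.2.1 ∧ (A2 v.1 z.2.2 ∧ B1 z.2.1 z.2.2))) := by
          rw [cn_prod (fun w : Bool × Fin d => v.2.1.1 ≠ w.1) (fun z : U κ t × U κ t =>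
            A2 v.1 z.1 ∧ (A2 v.1 z.2 ∧ B1 z.1 z.2)), cn_bool_ne]
      _ ≤ _ := by
          refine cn_param_ge (fun z => ((z.2.1, (z.1, v.2.2)), (z.2.2, (z.1, v.2.2)))) ?_ ?_
          · rintro ⟨a, b, c⟩ ⟨a', b', c'⟩ _ _ h
            obtain ⟨h1, h2⟩ := Prod.mk.inj h
            obtain ⟨h3, h4⟩ := Prod.mk.inj h1
            obtain ⟨h5, _⟩ := Prod.mk.inj h2
            obtain ⟨h6, _⟩ := Prod.mk.inj h4
            exact Prod.ext h6 (Prod.ext h3 h5)
          · rintro ⟨a, b, c⟩ ⟨h1, h2⟩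
            exact ⟨⟨h1, rfl, rfl⟩, h2⟩
  refine (Nat.add_le_add h1 h2).trans ?_
  rw [← cn_or_eq]
  · refine cn_le fun z hz => ?_
    rcases hz with ⟨⟨g1, g2⟩, ⟨g3, g4⟩, g5⟩ | ⟨⟨g1, g2, g3⟩, g4, g5, g6⟩
    · exact ⟨⟨g5, g1.trans g2.symm⟩, (Nb_iff _ _).2 (Or.inl ⟨g1, g3⟩),
        (Nb_iff _ _).2 (Or.inl ⟨g2, g4⟩)⟩
    · refine ⟨⟨g6, g2⟩, (Nb_iff _ _).2 (Or.inr (Or.inl ⟨g4, g1, g3⟩)),
        (Nb_iff _ _).2 (Or.inr (Or.inl ⟨g5, ?_, ?_⟩))⟩
      · rw [← g2]; exact g1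
      · rw [← g2]; exact g3
  · rintro z ⟨⟨g1, _⟩, _⟩ ⟨⟨g2, _⟩, _⟩
    exact g2 (by rw [g1])

/-- exact count for colour 1 -/
lemma P1_eq (v : VV κ t d m) :
    cn (fun z : VV κ t d m × VV κ t d m => C1 z.1 z.2 ∧ Nb v z.1 ∧ Nb v z.2) =
      2 * (d * (κ * t * (κ * t))) := by
  have hS : cn (fun z : U κ t × U κ t => A2 v.1 z.1 ∧ (fun x y => A2 x y) z.1 z.2) =
      κ * t * (κ * t) := by
    rw [cn_guard_eq (A2 v.1) (fun x y => A2 x y) (κ * t) (fun x _ => cn_A2 x), cn_A2]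
  have hR1 : cn (fun z : VV κ t d m × VV κ t d m =>
      (v.2.1.1 ≠ z.1.2.1.1 ∧ z.1.2.2 = v.2.2 ∧ z.2.2 = v.2) ∧
        (A2 v.1 z.1.1 ∧ A2 z.1.1 z.2.1)) = d * (κ * t * (κ * t)) := by
    rw [← hS]
    have : d * cn (fun z : U κ t × U κ t => A2 v.1 z.1 ∧ (fun x y => A2 x y) z.1 z.2) =
        cn (fun z : (Bool × Fin d) × (U κ t × U κ t) => v.2.1.1 ≠ z.1.1 ∧
          (A2 v.1 z.2.1 ∧ A2 z.2.1 z.2.2)) := by
      rw [cn_prod (fun w : Bool × Fin d => v.2.1.1 ≠ w.1) (fun z : U κ t × U κ t =>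
            A2 v.1 z.1 ∧ A2 z.1 z.2), cn_bool_ne]
    rw [this]
    refine cn_param (fun z => ((z.2.1, (z.1, v.2.2)), (z.2.2, v.2))) ?_ ?_
    · rintro ⟨a, b, c⟩ ⟨a', b', c'⟩ _ _ h
      obtain ⟨h1, h2⟩ := Prod.mk.inj h
      obtain ⟨h3, h4⟩ := Prod.mk.inj h1
      obtain ⟨h5, _⟩ := Prod.mk.inj h2
      obtain ⟨h6, _⟩ := Prod.mk.inj h4
      exact Prod.ext h6 (Prod.ext h3 h5)
    · rintro ⟨⟨x, w, y⟩, ⟨x', w'⟩⟩
      constructor
      · rintro ⟨⟨h1, h2, h3⟩, h4, h5⟩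
        exact ⟨(w, (x, x')), ⟨h1, h4, h5⟩,
          Prod.ext (Prod.ext rfl (Prod.ext rfl h2.symm)) (Prod.ext rfl h3.symm)⟩
      · rintro ⟨⟨a, b, c⟩, ⟨h1, h4, h5⟩, h⟩
        obtain ⟨h7, h8⟩ := Prod.mk.inj h
        obtain ⟨rfl, h9⟩ := Prod.mk.inj h7
        obtain ⟨rfl, rfl⟩ := Prod.mk.inj h9
        obtain ⟨rfl, rfl⟩ := Prod.mk.inj h8
        exact ⟨⟨h1, rfl, rfl⟩, h4, h5⟩
  have hR2 := cn_swap (fun a b : VV κ t d m =>
      (v.2.1.1 ≠ a.2.1.1 ∧ a.2.2 = v.2.2 ∧ b.2 = v.2) ∧ (A2 v.1 a.1 ∧ A2 a.1 b.1))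
  have hor : cn (fun z : VV κ t d m × VV κ t d m => C1 z.1 z.2 ∧ Nb v z.1 ∧ Nb v z.2) =
      cn (fun z : VV κ t d m × VV κ t d m =>
        ((v.2.1.1 ≠ z.1.2.1.1 ∧ z.1.2.2 = v.2.2 ∧ z.2.2 = v.2) ∧
          (A2 v.1 z.1.1 ∧ A2 z.1.1 z.2.1)) ∨
        ((v.2.1.1 ≠ z.2.2.1.1 ∧ z.2.2.2 = v.2.2 ∧ z.1.2 = v.2) ∧
          (A2 v.1 z.2.1 ∧ A2 z.2.1 z.1.1))) := by
    refine cn_congr fun z => ?_
    obtain ⟨a, b⟩ := z
    simp only [Nb_iff]
    constructor
    · rintro ⟨⟨h1, h2, h3⟩, ha, hb⟩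
      rcases ha with ⟨a1, a2⟩ | ⟨a1, a2, a3⟩ | ⟨a1, a2, a3⟩
      · rcases hb with ⟨b1, b2⟩ | ⟨b1, b2, b3⟩ | ⟨b1, b2, b3⟩
        · exact (h2 (by rw [a1, b1])).elim
        · exact Or.inr ⟨⟨b2, b3, a1⟩, b1, A2_symm h1⟩
        · exact (b3 (by rw [← h3, a1])).elim
      · rcases hb with ⟨b1, b2⟩ | ⟨b1, b2, b3⟩ | ⟨b1, b2, b3⟩
        · exact Or.inl ⟨⟨a2, a3, b1⟩, a1, h1⟩
        · exfalso
          revert h2 a2 b2
          cases a.2.1.1 <;> cases b.2.1.1 <;> cases v.2.1.1 <;> simp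
        · exact (b3 (by rw [← h3, a3])).elim
      · rcases hb with ⟨b1, b2⟩ | ⟨b1, b2, b3⟩ | ⟨b1, b2, b3⟩
        · exact (a3 (by rw [h3, b1])).elim
        · exact (a3 (by rw [h3, b3])).elim
        · exact (h2 (by rw [a2, b2])).elim
    · rintro (⟨⟨h1, h2, h3⟩, h4, h5⟩ | ⟨⟨h1, h2, h3⟩, h4, h5⟩)
      · refine ⟨⟨h5, ?_, ?_⟩, Or.inr (Or.inl ⟨h4, h1, h2⟩), Or.inl ⟨h3, ?_⟩⟩
        · rw [h3]; exact h1.symm
        · rw [h2, h3]
        · refine Cl_of_Bs (Or.inl (h4.1.trans h5.1))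
      · refine ⟨⟨A2_symm h5, ?_, ?_⟩, Or.inl ⟨h3, ?_⟩, Or.inr (Or.inl ⟨h4, h1, h2⟩)⟩
        · rw [h3]; exact h1
        · rw [h2, h3]
        · refine Cl_of_Bs (Or.inl (h4.1.trans h5.1))
  rw [hor, cn_or_eq, hR1]
  · rw [hR2, hR1]; ring
  · rintro z ⟨⟨h1, _, _⟩, _⟩ ⟨⟨_, _, h3⟩, _⟩
    exact h1 (by rw [h3])

/-- upper bound for colour 2 -/
lemma P2_le (v : VV κ t d m) :
    cn (fun z : VV κ t d m × VV κ t d m => C2 z.1 z.2 ∧ Nb v z.1 ∧ Nb v z.2) ≤
      2 * (2 * (κ * (κ * t)) * (κ * t)) + 2 * (κ * t * (κ * t)) + 2 * m := by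
  have h1 : cn (fun z : VV κ t d m × VV κ t d m => (z.1.2 = v.2 ∧ z.2.2 = v.2) ∧
        (Cl v.1 z.1.1 ∧ Cl v.1 z.2.1) ∧ RR z.1.1 z.2.1) ≤
      2 * (2 * (κ * (κ * t)) * (κ * t)) + 2 * (κ * t * (κ * t)) := by
    refine le_trans ?_ (T3_le v.1)
    refine cn_param_le (fun z => ((z.1, v.2), (z.2, v.2))) ?_
    rintro ⟨⟨a, b⟩, ⟨a', b'⟩⟩ ⟨⟨h1, h2⟩, h3⟩
    exact ⟨(a, a'), h3, Prod.ext (Prod.ext rfl h1.symm) (Prod.ext rfl h2.symm)⟩
  have h2 : cn (fun z : VV κ t d m × VV κ t d m => z.1 = v ∧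
      (z.2.1 = v.1 ∧ z.2.2.1 = v.2.1 ∧ v.2.2.1 ≠ z.2.2.2.1)) ≤ m := by
    refine le_trans ?_ (cn_bool_ne v.2.2.1 m).le
    refine cn_param_le (fun y => (v, (v.1, (v.2.1, y)))) ?_
    rintro ⟨a, ⟨b, c, e⟩⟩ ⟨h1, h2, h3, h4⟩
    exact ⟨e, h4, Prod.ext h1.symm (Prod.ext h2.symm (Prod.ext h3.symm rfl))⟩
  have h3 := cn_swap (fun a b : VV κ t d m => a = v ∧
      (b.1 = v.1 ∧ b.2.1 = v.2.1 ∧ v.2.2.1 ≠ b.2.2.1))
  have h4 : cn (fun z : VV κ t d m × VV κ t d m => C2 z.1 z.2 ∧ Nb v z.1 ∧ Nb v z.2) ≤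
      cn (fun z : VV κ t d m × VV κ t d m =>
        ((z.1.2 = v.2 ∧ z.2.2 = v.2) ∧ (Cl v.1 z.1.1 ∧ Cl v.1 z.2.1) ∧ RR z.1.1 z.2.1) ∨
        ((z.1 = v ∧ (z.2.1 = v.1 ∧ z.2.2.1 = v.2.1 ∧ v.2.2.1 ≠ z.2.2.2.1)) ∨
        (z.2 = v ∧ (z.1.1 = v.1 ∧ z.1.2.1 = v.2.1 ∧ v.2.2.1 ≠ z.1.2.2.1)))) := by
    refine cn_le fun z => ?_
    obtain ⟨a, b⟩ := z
    simp only [Nb_iff]
    rintro ⟨hc, ha, hb⟩
    rcases hc with ⟨c1, c2⟩ | ⟨c1, c2, c3⟩
    · rcases ha with ⟨a1, a2⟩ | ⟨a1, a2, a3⟩ | ⟨a1, a2, a3⟩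
      · rcases hb with ⟨b1, b2⟩ | ⟨b1, b2, b3⟩ | ⟨b1, b2, b3⟩
        · exact Or.inl ⟨⟨a1, b1⟩, ⟨a2, b2⟩, c1⟩
        · exact (b2 (by rw [← c2, a1])).elim
        · exact (b3 (by rw [← c2, a1])).elim
      · rcases hb with ⟨b1, b2⟩ | ⟨b1, b2, b3⟩ | ⟨b1, b2, b3⟩
        · exact (a2 (by rw [c2, b1])).elim
        · exact (c1.2.1 (a1.1.symm.trans b1.1)).elim
        · exact (b3 (by rw [← c2, a3])).elim
      · rcases hb with ⟨b1, b2⟩ | ⟨b1, b2, b3⟩ | ⟨b1, b2, b3⟩
        · exact (a3 (by rw [c2, b1])).elim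
        · exact (a3 (by rw [c2, b3])).elim
        · exact (c1.1 (by rw [a1, b1])).elim
    · rcases ha with ⟨a1, a2⟩ | ⟨a1, a2, a3⟩ | ⟨a1, a2, a3⟩
      · rcases hb with ⟨b1, b2⟩ | ⟨b1, b2, b3⟩ | ⟨b1, b2, b3⟩
        · exact (c3 (by rw [a1, b1])).elim
        · exact (b2 (by rw [← c2, a1])).elim
        · exact Or.inr (Or.inl ⟨Prod.ext (c1.trans b1) a1, b1, b2, b3⟩)
      · rcases hb with ⟨b1, b2⟩ | ⟨b1, b2, b3⟩ | ⟨b1, b2, b3⟩
        · exact (a2 (by rw [c2, b1])).elim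
        · exact (c3 (by rw [a3, b3])).elim
        · exact (a2 (by rw [c2, b2])).elim
      · rcases hb with ⟨b1, b2⟩ | ⟨b1, b2, b3⟩ | ⟨b1, b2, b3⟩
        · exact Or.inr (Or.inr ⟨Prod.ext (c1.symm.trans a1) b1, a1, a2, a3⟩)
        · exact (b2 (by rw [← c2, a2])).elim
        · exfalso
          revert c3 a3 b3
          cases a.2.2.1 <;> cases b.2.2.1 <;> cases v.2.2.1 <;> simp
  refine h4.trans ((cn_or_le _ _).trans ?_)
  have h5 := cn_or_le (fun z : VV κ t d m × VV κ t d m => z.1 = v ∧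
      (z.2.1 = v.1 ∧ z.2.2.1 = v.2.1 ∧ v.2.2.1 ≠ z.2.2.2.1))
    (fun z : VV κ t d m × VV κ t d m => z.2 = v ∧
      (z.1.1 = v.1 ∧ z.1.2.1 = v.2.1 ∧ v.2.2.1 ≠ z.1.2.2.1))
  rw [h3] at h5
  omega

end levelV

section final

/-- The explicit three-colour flip sequences. -/
def seq (κ t : ℕ) : Fin 3 → ℕ :=
  ![(2 * κ + 1) * t - 1, κ * t * (2 * (κ + 3)), 2 * (κ * (κ * t)) + (5 * (κ * t) ^ 2 - 1)]

theorem seq_flip (κ t : ℕ) (hκ : 1 ≤ κ) (ht : κ + 2 ≤ t) : IsFlipSeq (seq κ t) := by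
  classical
  set s := κ * t with hs
  have hst : t ≤ s := by nlinarith
  have hs3 : 3 ≤ s := by omega
  have hssq : s ^ 2 = s * s := pow_two s
  have hs9 : 3 * s ≤ s * s := Nat.mul_le_mul_right s hs3
  have hks : κ * s ≤ s * s := by
    refine Nat.mul_le_mul_right s ?_
    nlinarith
  refine ⟨?_, ?_, VV κ t (2 * (κ + 3)) (5 * s ^ 2 - 1), inferInstance, ?_,
    GG κ t (2 * (κ + 3)) (5 * s ^ 2 - 1), ff κ t (2 * (κ + 3)) (5 * s ^ 2 - 1), ?_, ?_⟩
  · intro j
    fin_cases j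
    · change 0 < (2 * κ + 1) * t - 1
      have : (2 * κ + 1) * t = 2 * s + t := by rw [hs]; ring
      omega
    · change 0 < κ * t * (2 * (κ + 3))
      rw [← hs]; positivity
    · change 0 < 2 * (κ * (κ * t)) + (5 * (κ * t) ^ 2 - 1)
      rw [← hs]
      omega
  · have h01 : seq κ t 0 < seq κ t 1 := by
      change (2 * κ + 1) * t - 1 < κ * t * (2 * (κ + 3))
      rw [← hs]
      have e1 : (2 * κ + 1) * t = 2 * s + t := by rw [hs]; ring
      have e2 : s * (2 * (κ + 3)) = 2 * (κ * s) + 6 * s := by ring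
      omega
    have h12 : seq κ t 1 < seq κ t 2 := by
      change κ * t * (2 * (κ + 3)) < 2 * (κ * (κ * t)) + (5 * (κ * t) ^ 2 - 1)
      rw [← hs]
      have e2 : s * (2 * (κ + 3)) = 2 * (κ * s) + 6 * s := by ring
      omega
    intro i j hij
    fin_cases i <;> fin_cases j
    · exact absurd hij (by decide)
    · exact h01
    · exact h01.trans h12
    · exact absurd hij (by decide)
    · exact absurd hij (by decide)
    · exact h12
    · exact absurd hij (by decide)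
    · exact absurd hij (by decide)
    · exact absurd hij (by decide)
  · have hm : 0 < 5 * s ^ 2 - 1 := by omega
    exact ⟨((fun _ => 0, 0, ⟨0, by omega⟩), ((true, ⟨0, by omega⟩), (true, ⟨0, hm⟩)))⟩
  · intro v j
    rw [colourDegree_cn]
    fin_cases j
    · rw [show cn (fun y => (GG κ t (2 * (κ + 3)) (5 * s ^ 2 - 1)).Adj v y ∧
          ff κ t (2 * (κ + 3)) (5 * s ^ 2 - 1) s(v, y) = (⟨0, by decide⟩ : Fin 3)) = cn (C0 v) from
          cn_congr fun y => ff0 v y, deg0]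
      have := cn_B1 v.1
      change _ = (2 * κ + 1) * t - 1
      omega
    · rw [show cn (fun y => (GG κ t (2 * (κ + 3)) (5 * s ^ 2 - 1)).Adj v y ∧
          ff κ t (2 * (κ + 3)) (5 * s ^ 2 - 1) s(v, y) = (⟨1, by decide⟩ : Fin 3)) = cn (C1 v) from
          cn_congr fun y => ff1 v y, deg1, cn_A2]
      rfl
    · rw [show cn (fun y => (GG κ t (2 * (κ + 3)) (5 * s ^ 2 - 1)).Adj v y ∧
          ff κ t (2 * (κ + 3)) (5 * s ^ 2 - 1) s(v, y) = (⟨2, by decide⟩ : Fin 3)) = cn (C2 v) from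
          cn_congr fun y => ff2 v y, deg2, cn_RR]
      rfl
  · intro v
    have q0 := closedCount_cn (GG κ t (2 * (κ + 3)) (5 * s ^ 2 - 1))
      (ff κ t (2 * (κ + 3)) (5 * s ^ 2 - 1)) 0 v
    have q1 := closedCount_cn (GG κ t (2 * (κ + 3)) (5 * s ^ 2 - 1))
      (ff κ t (2 * (κ + 3)) (5 * s ^ 2 - 1)) 1 v
    have q2 := closedCount_cn (GG κ t (2 * (κ + 3)) (5 * s ^ 2 - 1))
      (ff κ t (2 * (κ + 3)) (5 * s ^ 2 - 1)) 2 v
    simp only [ff0] at q0
    simp only [ff1] at q1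
    simp only [ff2] at q2
    have p0 := P0_ge v
    have p1 := P1_eq v
    have p2 := P2_le v
    unfold Nb at p0 p1 p2
    rw [← q0] at p0
    rw [p1] at q1
    rw [← q2] at p2
    rw [cn_Bs, cn_RR] at p0
    have hB := cn_B1 v.1
    rw [← hs] at p0 q1 p2
    have e1 : (2 * κ + 1) * t = 2 * s + t := by rw [hs]; ring
    have e2 : (κ + 1) * t = s + t := by rw [hs]; ring
    have hB' : cn (B1 v.1) = 2 * s + t - 1 := by omega
    rw [hB', e1, e2] at p0
    obtain ⟨S, hS⟩ : ∃ S, s = S + 1 := ⟨s - 1, by omega⟩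
    obtain ⟨T, hT⟩ : ∃ T, t = T + 1 := ⟨t - 1, by omega⟩
    have h12 : closedCount (GG κ t (2 * (κ + 3)) (5 * s ^ 2 - 1))
      (ff κ t (2 * (κ + 3)) (5 * s ^ 2 - 1)) 2 v < closedCount
      (GG κ t (2 * (κ + 3)) (5 * s ^ 2 - 1)) (ff κ t (2 * (κ + 3)) (5 * s ^ 2 - 1)) 1 v := by
      have e3 : 2 * (2 * (κ * s) * s) + 2 * (s * s) + 2 * (5 * s ^ 2 - 1) + 2 =
          2 * (2 * (κ + 3) * (s * s)) := by
        have : 2 * (5 * s ^ 2 - 1) + 2 = 10 * (s * s) := by omega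
        rw [add_assoc, this]; ring
      omega
    have h01 : closedCount (GG κ t (2 * (κ + 3)) (5 * s ^ 2 - 1))
      (ff κ t (2 * (κ + 3)) (5 * s ^ 2 - 1)) 1 v < closedCount
      (GG κ t (2 * (κ + 3)) (5 * s ^ 2 - 1)) (ff κ t (2 * (κ + 3)) (5 * s ^ 2 - 1)) 0 v := by
      have e3 : 2 * (2 * (κ + 3) * (s * s)) < (2 * s + t) * (2 * s + t - 1) +
          2 * (κ * s) * (s + t - 1) + 2 * (κ + 3) * (s * (s - 1)) := by
        have a1 : 2 * s + t - 1 = 2 * s + T := by omega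
        have a2 : s + t - 1 = s + T := by omega
        have a3 : s - 1 = S := by omega
        rw [a1, a2, a3]
        have b1 : s = κ * t := hs
        have b2 : κ * T + κ = s := by rw [hs, hT]; ring
        have b3 : κ + 1 ≤ T := by omega
        zify at *
        have c1 : (S : ℤ) = s - 1 := by linarith
        have c2 : (t : ℤ) = T + 1 := by linarith
        rw [c1, c2]
        have c3 : (s : ℤ) = κ * T + κ := by linarith
        have hk0 : (1 : ℤ) ≤ κ := hκ
        -- reduce to a polynomial inequality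
        have key : (0 : ℤ) < (T + 1) * (4 * κ + 1) - (4 * κ ^ 2 + 8 * κ + 1) := by nlinarith
        have key2 : (0 : ℤ) < (T + 1) * ((T + 1) * (4 * κ + 1) - (4 * κ ^ 2 + 8 * κ + 1)) := by
          apply mul_pos _ key
          linarith
        rw [c3]
        nlinarith [key2]
      omega
    intro i j hij
    fin_cases i <;> fin_cases j
    · exact absurd hij (by decide)
    · exact h01
    · exact h12.trans h01
    · exact absurd hij (by decide)
    · exact absurd hij (by decide)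
    · exact h12
    · exact absurd hij (by decide)
    · exact absurd hij (by decide)
    · exact absurd hij (by decide)

/-- The set of real c for which infinitely many three-colour flip sequences satisfy
a_3 ≥ c a_1^2. -/
def goodC : Set ℝ := {c : ℝ | {a : Fin 3 → ℕ | IsFlipSeq a ∧ c * (a 0 : ℝ) ^ 2 ≤ a 2}.Infinite}

lemma seq_ratio (κ t : ℕ) (hκ : 1 ≤ κ) (ht : κ + 2 ≤ t) :
    5 * (κ : ℝ) ^ 2 / (2 * κ + 1) ^ 2 * (seq κ t 0 : ℝ) ^ 2 ≤ seq κ t 2 := by
  have h0 : ((seq κ t 0 : ℕ) : ℝ) ≤ (2 * κ + 1) * t := by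
    have : seq κ t 0 ≤ (2 * κ + 1) * t := Nat.sub_le _ _
    exact_mod_cast this
  have hs : 1 ≤ κ * t := Nat.succ_le_of_lt (Nat.mul_pos hκ (by omega))
  have h2 : (5 * ((κ : ℝ) * t) ^ 2) ≤ seq κ t 2 := by
    have : 5 * (κ * t) ^ 2 ≤ seq κ t 2 := by
      change _ ≤ 2 * (κ * (κ * t)) + (5 * (κ * t) ^ 2 - 1)
      have : 1 ≤ κ * (κ * t) := Nat.succ_le_of_lt (Nat.mul_pos hκ hs)
      omega
    exact_mod_cast this
  refine le_trans ?_ h2
  have hk : (0 : ℝ) < 2 * κ + 1 := by positivity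
  have h3 : ((seq κ t 0 : ℕ) : ℝ) ^ 2 ≤ ((2 * κ + 1) * t) ^ 2 := by
    gcongr
  calc 5 * (κ : ℝ) ^ 2 / (2 * κ + 1) ^ 2 * (seq κ t 0 : ℝ) ^ 2
      ≤ 5 * (κ : ℝ) ^ 2 / (2 * κ + 1) ^ 2 * ((2 * κ + 1) * t) ^ 2 :=
        mul_le_mul_of_nonneg_left h3 (by positivity)
    _ = 5 * ((κ : ℝ) * t) ^ 2 := by field_simp

lemma seq_inj (κ : ℕ) (hκ : 1 ≤ κ) {t t' : ℕ} (h : seq κ t = seq κ t') : t = t' := by
  have h1 := congrFun h 1
  change κ * t * (2 * (κ + 3)) = κ * t' * (2 * (κ + 3)) at h1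
  have h2 : κ * t = κ * t' := Nat.eq_of_mul_eq_mul_right (by omega) h1
  exact Nat.eq_of_mul_eq_mul_left hκ h2

lemma mem_goodC {c : ℝ} (hc : c < 5 / 4) : c ∈ goodC := by
  -- choose κ large
  obtain ⟨κ, hκ1, hκ⟩ : ∃ κ : ℕ, 1 ≤ κ ∧ c ≤ 5 * (κ : ℝ) ^ 2 / (2 * κ + 1) ^ 2 := by
    obtain ⟨κ, hκ⟩ := exists_nat_gt (5 / (5 / 4 - c))
    have hpos : (0 : ℝ) < 5 / 4 - c := by linarith
    have hκ0 : (0 : ℝ) < κ := lt_trans (by positivity) hκ
    refine ⟨κ, by exact_mod_cast hκ0, ?_⟩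
    have h1 : 5 < κ * (5 / 4 - c) := by
      rwa [div_lt_iff₀ hpos] at hκ
    rw [le_div_iff₀ (by positivity)]
    nlinarith [sq_nonneg (κ : ℝ), mul_pos hκ0 hκ0, mul_pos hκ0 hpos]
  refine Set.infinite_of_injective_forall_mem (f := fun n : ℕ => seq κ (κ + 2 + n)) ?_ ?_
  · intro n n' h
    have := seq_inj κ hκ1 h
    omega
  · intro n
    refine ⟨seq_flip κ _ hκ1 (by omega), ?_⟩
    refine le_trans ?_ (seq_ratio κ (κ + 2 + n) hκ1 (by omega))
    exact mul_le_mul_of_nonneg_right hκ (by positivity)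

lemma goodC_lt {c : ℝ} (hc : c ∈ goodC) : c < 5 / 4 := by
  obtain ⟨a, ha, hca⟩ := Set.Infinite.nonempty hc
  have h1 := flip_upper a ha
  have h2 : (a 0 : ℝ) + 1 ≤ a 1 := by
    have : a 0 < a 1 := ha.2.1 (by decide)
    exact_mod_cast this
  have h3 : (0 : ℝ) < a 0 := by exact_mod_cast ha.1 0
  by_contra hge
  push Not at hge
  have h4 : 5 / 4 * (a 0 : ℝ) ^ 2 ≤ c * (a 0 : ℝ) ^ 2 :=
    mul_le_mul_of_nonneg_right hge (by positivity)
  linarith

/-- The constant c* equals 5/4. Moreover every three-colour flip sequence satisfies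
a_2 + a_3 + 3 ≤ (5/4) a_1^2 + a_1, in particular a_3 < (5/4) a_1^2. -/
theorem result :
    sSup {c : ℝ | {a : Fin 3 → ℕ | IsFlipSeq a ∧ c * (a 0 : ℝ) ^ 2 ≤ a 2}.Infinite} = 5 / 4 ∧
    (∀ a : Fin 3 → ℕ, IsFlipSeq a → (a 1 : ℝ) + a 2 + 3 ≤ 5 / 4 * (a 0 : ℝ) ^ 2 + a 0) := by
  refine ⟨?_, flip_upper⟩
  have h : goodC = Set.Iio (5 / 4 : ℝ) := by
    ext c
    exact ⟨goodC_lt, mem_goodC⟩
  change sSup goodC = 5 / 4
  rw [h, csSup_Iio]

end final

end Pool.Agent.Results.MP_56a9b7_co.FlipConstant
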